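import Pool.Agent.T6.H21.JD.Lower

/-!
# Jet determination: two families of monomial maps
-/

open Metric Topology

namespace Pool.Agent.T6.H21.JD

/-- There are two different proper polynomial maps of degree at most `d` with the same jet of
order `k`. -/
def Pair (n N d k : ℕ) : Prop :=
  ∃ f g : EuclideanSpace ℂ (Fin n) → EuclideanSpace ℂ (Fin N),
    IsProperHol f ∧ DegLE d f ∧ IsProperHol g ∧ DegLE d g ∧ SameJet k f g ∧
    ∃ z ∈ ball (0 : EuclideanSpace ℂ (Fin n)) 1, g z ≠ f z

/-- The family `(z_i z_n^j)_{i<n, j<d}, z_n^d`. -/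
theorem whitney {m N d k : ℕ} (hd : 1 ≤ d) (hN : d * m + 1 ≤ N) (hk : k < d) :
    Pair (m + 1) N d k := by
  obtain ⟨e⟩ : Nonempty (Option (Fin m × Fin d) ↪ Fin N) := by
    apply Function.Embedding.nonempty_of_card_le
    rw [Fintype.card_option, Fintype.card_prod, Fintype.card_fin, Fintype.card_fin,
      Fintype.card_fin]
    rw [mul_comm]; exact hN
  set α : Option (Fin m × Fin d) → Fin (m + 1) → ℕ := fun o => match o with
    | none => Fin.snoc (α := fun _ => ℕ) (fun _ => 0) d
    | some p => Fin.snoc (α := fun _ => ℕ) (fun i => if i = p.1 then 1 else 0) (p.2 : ℕ) with hα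
  have hs1 : ∀ p : Fin m × Fin d, ∑ l, α (some p) l = 1 + p.2 := by
    intro p
    rw [Fin.sum_univ_castSucc]
    simp [hα]
  have hs0 : ∑ l, α none l = d := by
    rw [Fin.sum_univ_castSucc]
    simp [hα]
  refine exists_pair e (fun _ => 1) (fun _ => zero_le_one) α ?_ ?_ (d := d) ?_ none one_pos
    (by rw [hs0]; exact hk)
  · intro o
    cases o with
    | none => rw [hs0]; exact hd
    | some p => rw [hs1]; omega
  · intro x _ hx1
    rw [Fintype.sum_option]
    have h1 : ∏ l, x l ^ α none l = x (Fin.last m) ^ d := by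
      rw [Fin.prod_univ_castSucc]
      simp [hα]
    have h2 : ∀ p : Fin m × Fin d, ∏ l, x l ^ α (some p) l
        = x p.1.castSucc * x (Fin.last m) ^ (p.2 : ℕ) := by
      intro p
      rw [Fin.prod_univ_castSucc]
      simp [hα, pow_ite, Finset.prod_ite_eq']
    rw [h1]
    simp only [h2, one_mul]
    rw [Fintype.sum_prod_type]
    simp only
    rw [← Finset.sum_mul_sum, Fin.sum_univ_eq_sum_range (fun j => x (Fin.last m) ^ j) d]
    rw [Fin.sum_univ_castSucc] at hx1
    have h3 : ∑ i : Fin m, x i.castSucc = 1 - x (Fin.last m) := by linarith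
    rw [h3]
    have h4 := geom_sum_mul (x (Fin.last m)) d
    linear_combination -h4
  · intro o
    cases o with
    | none => rw [hs0]
    | some p => rw [hs1]; have := p.2.isLt; omega

/-- Coefficients of the polynomials `L_m = x L_{m-1} + y L_{m-2}`, `L_0 = 2`, `L_1 = x`. -/
def co : ℕ → ℕ → ℕ
  | 0, 0 => 2
  | 0, _ + 1 => 0
  | 1, 0 => 1
  | 1, _ + 1 => 0
  | m + 2, 0 => co (m + 1) 0
  | m + 2, j + 1 => co (m + 1) (j + 1) + co m j

lemma co_zero : ∀ m j : ℕ, m < 2 * j → co m j = 0
  | 0, 0, h => by omega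
  | 0, j + 1, _ => by rw [co]
  | 1, 0, h => by omega
  | 1, j + 1, _ => by rw [co]
  | m + 2, 0, h => by omega
  | m + 2, j + 1, h => by
      rw [co, co_zero (m + 1) (j + 1) (by omega), co_zero m j (by omega)]

lemma co_sum (y : ℝ) : ∀ m M : ℕ, m < 2 * M →
    ∑ j ∈ Finset.range M, (co m j : ℝ) * ((1 - y) ^ (m - 2 * j) * y ^ j) = 1 + (-y) ^ m
  | 0, M, h => by
      obtain ⟨M, rfl⟩ : ∃ M', M = M' + 1 := ⟨M - 1, by omega⟩
      rw [Finset.sum_range_succ', Finset.sum_eq_zero]
      · simp [co]; norm_num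
      · intro j _
        rw [co_zero 0 (j + 1) (by omega)]; simp
  | 1, M, h => by
      obtain ⟨M, rfl⟩ : ∃ M', M = M' + 1 := ⟨M - 1, by omega⟩
      rw [Finset.sum_range_succ', Finset.sum_eq_zero]
      · simp [co]; ring
      · intro j _
        rw [co_zero 1 (j + 1) (by omega)]; simp
  | m + 2, M, h => by
      obtain ⟨M, rfl⟩ : ∃ M', M = M' + 1 := ⟨M - 1, by omega⟩
      have h1 := co_sum y (m + 1) (M + 1) (by omega)
      have h2 := co_sum y m M (by omega)
      rw [Finset.sum_range_succ'] at h1 ⊢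
      have h3 : ∑ j ∈ Finset.range M, (co (m + 2) (j + 1) : ℝ) *
          ((1 - y) ^ (m + 2 - 2 * (j + 1)) * y ^ (j + 1))
          = (1 - y) * ∑ j ∈ Finset.range M, (co (m + 1) (j + 1) : ℝ) *
            ((1 - y) ^ (m + 1 - 2 * (j + 1)) * y ^ (j + 1))
            + y * ∑ j ∈ Finset.range M, (co m j : ℝ) * ((1 - y) ^ (m - 2 * j) * y ^ j) := by
        rw [Finset.mul_sum, Finset.mul_sum, ← Finset.sum_add_distrib]
        apply Finset.sum_congr rfl
        intro j _
        have e1 : co (m + 2) (j + 1) = co (m + 1) (j + 1) + co m j := by rw [co]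
        have e2 : m + 2 - 2 * (j + 1) = m - 2 * j := by omega
        rw [e1, e2]
        push_cast
        by_cases hj : m < 2 * j + 1
        · rw [co_zero (m + 1) (j + 1) (by omega)]
          push_cast; ring
        · have e3 : m - 2 * j = (m + 1 - 2 * (j + 1)) + 1 := by omega
          have e4 : (1 - y) ^ (m - 2 * j) = (1 - y) ^ (m + 1 - 2 * (j + 1)) * (1 - y) := by
            rw [e3, pow_succ]
          have e5 : (co m j : ℝ) * ((1 - y) ^ (m - 2 * j) * y ^ j) * y
              = (co m j : ℝ) * ((1 - y) ^ (m - 2 * j)) * y ^ (j + 1) := by ring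
          linear_combination (co (m + 1) (j + 1) : ℝ) * y ^ (j + 1) * e4
      rw [h3, h2]
      have e6 : co (m + 2) 0 = co (m + 1) 0 := by rw [co]
      rw [e6]
      have e7 : (1 - y) ^ (m + 2 - 2 * 0) = (1 - y) * (1 - y) ^ (m + 1 - 2 * 0) := by
        rw [mul_zero, Nat.sub_zero, Nat.sub_zero, pow_succ]; ring
      rw [e7]
      linear_combination (1 - y) * h1

lemma co_sum' (y : ℝ) {m r : ℕ} (h : m < 2 * (r + 1)) :
    ∑ j : Fin (r + 1), (co m j : ℝ) * ((1 - y) ^ (m - 2 * (j : ℕ)) * y ^ (j : ℕ))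
      = 1 + (-y) ^ m := by
  rw [← co_sum y m (r + 1) h]
  exact Fin.sum_univ_eq_sum_range
    (fun j => (co m j : ℝ) * ((1 - y) ^ (m - 2 * j) * y ^ j)) (r + 1)

/-- D'Angelo's sharp family of degree `2r+1`. -/
theorem dangelo_odd {r N k : ℕ} (hN : r + 2 ≤ N) (hk : k < 2 * r + 1) :
    Pair 2 N (2 * r + 1) k := by
  obtain ⟨e⟩ : Nonempty (Option (Fin (r + 1)) ↪ Fin N) := by
    apply Function.Embedding.nonempty_of_card_le
    rw [Fintype.card_option, Fintype.card_fin, Fintype.card_fin]
    omega
  set α : Option (Fin (r + 1)) → Fin 2 → ℕ := fun o => match o with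
    | none => ![0, 2 * r + 1]
    | some j => ![2 * r + 1 - 2 * (j : ℕ), (j : ℕ)] with hα
  set c : Option (Fin (r + 1)) → ℝ := fun o => match o with
    | none => 1
    | some j => (co (2 * r + 1) j : ℝ) with hc
  have hs0 : ∑ l, α none l = 2 * r + 1 := by
    rw [Fin.sum_univ_two]; simp [hα]
  have hs1 : ∀ j : Fin (r + 1), ∑ l, α (some j) l = 2 * r + 1 - j := by
    intro j
    have := j.isLt
    rw [Fin.sum_univ_two]
    simp only [hα, Matrix.cons_val_zero, Matrix.cons_val_one]
    omega
  refine exists_pair e c ?_ α ?_ ?_ (d := 2 * r + 1) ?_ none ?_ (by rw [hs0]; exact hk)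
  · intro o
    cases o with
    | none => exact zero_le_one
    | some j => exact Nat.cast_nonneg _
  · intro o
    cases o with
    | none => rw [hs0]; omega
    | some j => rw [hs1]; have := j.isLt; omega
  · intro x _ hx1
    rw [Fin.sum_univ_two] at hx1
    have h0 : x 0 = 1 - x 1 := by linarith
    rw [Fintype.sum_option]
    have h2 : ∑ j, c (some j) * ∏ l, x l ^ α (some j) l = 1 + (-x 1) ^ (2 * r + 1) := by
      rw [← co_sum' (x 1) (show 2 * r + 1 < 2 * (r + 1) by omega)]
      apply Finset.sum_congr rfl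
      intro j _
      rw [Fin.prod_univ_two, h0]
      simp [hα, hc]
    have h1 : c none * ∏ l, x l ^ α none l = x 1 ^ (2 * r + 1) := by
      rw [Fin.prod_univ_two]; simp [hα, hc]
    rw [h1, h2, Odd.neg_pow ⟨r, rfl⟩]
    ring
  · intro o
    cases o with
    | none => rw [hs0]
    | some j => rw [hs1]; omega
  · exact one_pos

/-- The tensor product of the last component of D'Angelo's family, degree `2r+2`. -/
theorem dangelo_even {r N k : ℕ} (hN : r + 3 ≤ N) (hk : k < 2 * r + 2) :
    Pair 2 N (2 * r + 2) k := by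
  obtain ⟨e⟩ : Nonempty (Option (Option (Fin (r + 1))) ↪ Fin N) := by
    apply Function.Embedding.nonempty_of_card_le
    rw [Fintype.card_option, Fintype.card_option, Fintype.card_fin, Fintype.card_fin]
    omega
  set α : Option (Option (Fin (r + 1))) → Fin 2 → ℕ := fun o => match o with
    | none => ![0, 2 * r + 2]
    | some none => ![1, 2 * r + 1]
    | some (some j) => ![2 * r + 1 - 2 * (j : ℕ), (j : ℕ)] with hα
  set c : Option (Option (Fin (r + 1))) → ℝ := fun o => match o with
    | none => 1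
    | some none => 1
    | some (some j) => (co (2 * r + 1) j : ℝ) with hc
  have hs0 : ∑ l, α none l = 2 * r + 2 := by
    rw [Fin.sum_univ_two]; simp [hα]
  have hs2 : ∑ l, α (some none) l = 2 * r + 2 := by
    rw [Fin.sum_univ_two]; simp [hα]; omega
  have hs1 : ∀ j : Fin (r + 1), ∑ l, α (some (some j)) l = 2 * r + 1 - j := by
    intro j
    have := j.isLt
    rw [Fin.sum_univ_two]
    simp only [hα, Matrix.cons_val_zero, Matrix.cons_val_one]
    omega
  refine exists_pair e c ?_ α ?_ ?_ (d := 2 * r + 2) ?_ none ?_ (by rw [hs0]; exact hk)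
  · intro o
    match o with
    | none => exact zero_le_one
    | some none => exact zero_le_one
    | some (some j) => exact Nat.cast_nonneg _
  · intro o
    match o with
    | none => rw [hs0]; omega
    | some none => rw [hs2]; omega
    | some (some j) => rw [hs1]; have := j.isLt; omega
  · intro x _ hx1
    rw [Fin.sum_univ_two] at hx1
    have h0 : x 0 = 1 - x 1 := by linarith
    rw [Fintype.sum_option, Fintype.sum_option]
    have h2 : ∑ j, c (some (some j)) * ∏ l, x l ^ α (some (some j)) l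
        = 1 + (-x 1) ^ (2 * r + 1) := by
      rw [← co_sum' (x 1) (show 2 * r + 1 < 2 * (r + 1) by omega)]
      apply Finset.sum_congr rfl
      intro j _
      rw [Fin.prod_univ_two, h0]
      simp [hα, hc]
    have h1 : c none * ∏ l, x l ^ α none l = x 1 ^ (2 * r + 2) := by
      rw [Fin.prod_univ_two]; simp [hα, hc]
    have h3 : c (some none) * ∏ l, x l ^ α (some none) l = (1 - x 1) * x 1 ^ (2 * r + 1) := by
      rw [Fin.prod_univ_two, h0]; simp [hα, hc]
    rw [h1, h2, h3, Odd.neg_pow ⟨r, rfl⟩]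
    ring
  · intro o
    match o with
    | none => rw [hs0]
    | some none => rw [hs2]
    | some (some j) => rw [hs1]; omega
  · exact one_pos

/-- In dimension two: a pair of degree `d` for every `1 ≤ d ≤ 2N-3`. -/
theorem dangelo {N d k : ℕ} (hd : 1 ≤ d) (hN : d + 3 ≤ 2 * N) (hk : k < d) : Pair 2 N d k := by
  rcases Nat.even_or_odd' d with ⟨s, hs | hs⟩
  · obtain ⟨r, rfl⟩ : ∃ r, s = r + 1 := ⟨s - 1, by omega⟩
    have h1 : d = 2 * r + 2 := by omega
    rw [h1]
    exact dangelo_even (by omega) (by omega)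
  · rw [hs]
    exact dangelo_odd (by omega) (by omega)

end Pool.Agent.T6.H21.JD
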