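import Mathlib

/-!
# Jet determination, the one variable core
-/

open Complex Filter Metric Topology Real

namespace Pool.Agent.T6.H21.JD

lemma avg_zero {h : ℂ → ℂ} {k m : ℕ} {r : ℝ} (hd : DifferentiableOn ℂ h (ball 0 1))
    (hO : h =O[𝓝 0] fun ζ : ℂ => ‖ζ‖ ^ (k + 1)) (hm : m ≤ k) (hr : 0 < r) (hr1 : r < 1) :
    circleAverage (fun ζ => h ζ * (starRingEnd ℂ) (ζ ^ m)) 0 r = 0 := by
  obtain ⟨C, hC⟩ := hO.bound
  have h0 : h 0 = 0 := by
    have := hC.self_of_nhds
    simpa using this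
  set φ : ℂ → ℂ := fun ζ => h ζ * (ζ ^ m)⁻¹ with hφ
  have hφ0 : φ 0 = 0 := by simp [hφ, h0]
  have hcl : closedBall (0:ℂ) |r| ⊆ ball 0 1 := by
    rw [abs_of_pos hr]
    exact closedBall_subset_ball hr1
  have hdiff : ∀ z ∈ ball (0:ℂ) 1, z ≠ 0 → DifferentiableAt ℂ φ z := by
    intro z hz hz0
    have h1 : DifferentiableAt ℂ h z := hd.differentiableAt (isOpen_ball.mem_nhds hz)
    exact h1.mul ((differentiableAt_id.pow m).inv (pow_ne_zero m hz0))
  have hcont0 : ContinuousAt φ 0 := by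
    rw [ContinuousAt, hφ0]
    apply squeeze_zero_norm' (a := fun ζ => |C| * ‖ζ‖)
    · have hb : ∀ᶠ ζ : ℂ in 𝓝 0, ζ ∈ ball (0:ℂ) 1 := isOpen_ball.mem_nhds (by simp)
      filter_upwards [hC, hb] with ζ h1 h2
      by_cases hz : ζ = 0
      · rw [hz, hφ0]; simp
      have hz' : 0 < ‖ζ‖ := norm_pos_iff.mpr hz
      have h3 : ‖ζ‖ < 1 := by simpa using h2
      rw [hφ]
      simp only [norm_mul, norm_inv, norm_pow]
      rw [norm_pow, norm_norm] at h1
      have h4 : ‖ζ‖ ^ (k+1) * (‖ζ‖ ^ m)⁻¹ ≤ ‖ζ‖ := by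
        rw [← div_eq_mul_inv, div_le_iff₀ (pow_pos hz' m)]
        calc ‖ζ‖ ^ (k+1) ≤ ‖ζ‖ ^ (m+1) := pow_le_pow_of_le_one hz'.le h3.le (by omega)
          _ = ‖ζ‖ * ‖ζ‖ ^ m := by ring
      calc ‖h ζ‖ * (‖ζ‖ ^ m)⁻¹ ≤ (C * ‖ζ‖ ^ (k+1)) * (‖ζ‖ ^ m)⁻¹ :=
            mul_le_mul_of_nonneg_right h1 (by positivity)
        _ ≤ (|C| * ‖ζ‖ ^ (k+1)) * (‖ζ‖ ^ m)⁻¹ := by
            apply mul_le_mul_of_nonneg_right _ (by positivity)
            exact mul_le_mul_of_nonneg_right (le_abs_self C) (by positivity)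
        _ = |C| * (‖ζ‖ ^ (k+1) * (‖ζ‖ ^ m)⁻¹) := by ring
        _ ≤ |C| * ‖ζ‖ := mul_le_mul_of_nonneg_left h4 (abs_nonneg C)
    · have : Tendsto (fun ζ : ℂ => |C| * ‖ζ‖) (𝓝 0) (𝓝 (|C| * ‖(0:ℂ)‖)) :=
        (continuous_const.mul continuous_norm).tendsto 0
      simpa using this
  have hav : circleAverage φ 0 r = φ 0 := by
    apply circleAverage_of_differentiable_on_off_countable (s := {0}) (Set.countable_singleton 0)
    · intro z hz
      by_cases hz0 : z = 0
      · rw [hz0]; exact hcont0.continuousWithinAt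
      · exact (hdiff z (hcl hz) hz0).continuousAt.continuousWithinAt
    · intro z hz
      exact hdiff z (hcl (ball_subset_closedBall hz.1)) hz.2
  have hcongr : circleAverage (fun ζ => h ζ * (starRingEnd ℂ) (ζ ^ m)) 0 r
      = circleAverage (fun ζ => ((r:ℂ)^(2*m)) • φ ζ) 0 r := by
    apply circleAverage_congr_sphere
    intro ζ hζ
    have hn : ‖ζ‖ = r := by
      have := mem_sphere_zero_iff_norm.mp hζ
      rwa [abs_of_pos hr] at this
    have hz : ζ ≠ 0 := by
      intro h; rw [h, norm_zero] at hn; exact hr.ne hn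
    have h1 : (starRingEnd ℂ) ζ * ζ = (r:ℂ)^2 := by
      rw [mul_comm, Complex.mul_conj, Complex.normSq_eq_norm_sq, hn]; push_cast; rfl
    have h2 : (starRingEnd ℂ) (ζ ^ m) = (r:ℂ)^(2*m) * (ζ^m)⁻¹ := by
      rw [eq_mul_inv_iff_mul_eq₀ (pow_ne_zero m hz), map_pow, ← mul_pow, h1, pow_mul]
    show h ζ * (starRingEnd ℂ) (ζ ^ m) = ((r:ℂ)^(2*m)) • φ ζ
    rw [h2, hφ, smul_eq_mul]; ring
  rw [hcongr, circleAverage_fun_smul, hav, hφ0, smul_zero]

lemma norm_avg_le {f : ℂ → ℂ} {r : ℝ} :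
    ‖circleAverage f 0 r‖ ≤ circleAverage (fun z => ‖f z‖) 0 r := by
  rw [circleAverage, circleAverage, norm_smul, smul_eq_mul]
  have h1 : ‖(2 * π)⁻¹‖ = (2 * π)⁻¹ := by
    rw [Real.norm_eq_abs, abs_of_pos (by positivity)]
  rw [h1]
  apply mul_le_mul_of_nonneg_left _ (by positivity)
  exact intervalIntegral.norm_integral_le_integral_norm (by positivity)

lemma sq_bound {h : ℂ → ℂ} {r : ℝ} {w : ℂ} (hd : DifferentiableOn ℂ h (ball 0 1))
    (hr1 : r < 1) (hw : ‖w‖ < r) :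
    ‖h w‖ ^ 2 ≤ (r / (r - ‖w‖)) * circleAverage (fun z => ‖h z‖ ^ 2) 0 r := by
  have hr : 0 < r := lt_of_le_of_lt (norm_nonneg w) hw
  have hcl : closedBall (0:ℂ) |r| ⊆ ball 0 1 := by
    rw [abs_of_pos hr]
    exact closedBall_subset_ball hr1
  have hco : ContinuousOn h (closedBall (0:ℂ) |r|) := hd.continuousOn.mono hcl
  have h1 : circleAverage (fun z ↦ ((z - 0) / (z - w)) • (h z)^2) 0 r = (h w)^2 := by
    apply circleAverage_sub_sub_inv_smul_of_differentiable_on_off_countable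
      (f := fun z => (h z)^2) (s := ∅) Set.countable_empty
    · exact hco.pow 2
    · intro z hz
      exact (hd.differentiableAt (isOpen_ball.mem_nhds
        (hcl (ball_subset_closedBall hz.1)))).pow 2
    · rw [abs_of_pos hr]; simpa using hw
  have hsph : ∀ z ∈ sphere (0:ℂ) |r|, ‖z‖ = r := by
    intro z hz
    have := mem_sphere_zero_iff_norm.mp hz
    rwa [abs_of_pos hr] at this
  have hne : ∀ z ∈ sphere (0:ℂ) |r|, z - w ≠ 0 := by
    intro z hz h0
    have := hsph z hz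
    rw [sub_eq_zero.mp h0] at this
    linarith
  have hsub : sphere (0:ℂ) |r| ⊆ closedBall 0 |r| := sphere_subset_closedBall
  calc ‖h w‖ ^ 2 = ‖circleAverage (fun z ↦ ((z - 0) / (z - w)) • (h z)^2) 0 r‖ := by
        rw [h1, norm_pow]
    _ ≤ circleAverage (fun z => ‖((z - 0) / (z - w)) • (h z)^2‖) 0 r := norm_avg_le
    _ ≤ circleAverage (fun z => (r / (r - ‖w‖)) • ‖h z‖ ^ 2) 0 r := by
        apply circleAverage_mono
        · apply ContinuousOn.circleIntegrable'
          apply ContinuousOn.norm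
          have a1 : ContinuousOn (fun x : ℂ => (x - 0) / (x - w)) (sphere (0:ℂ) |r|) :=
            ContinuousOn.div (by fun_prop) (by fun_prop) hne
          have a2 : ContinuousOn (fun x : ℂ => h x ^ 2) (sphere (0:ℂ) |r|) :=
            (hco.mono hsub).pow 2
          exact a1.mul a2
        · apply ContinuousOn.circleIntegrable'
          have a2 : ContinuousOn (fun x : ℂ => ‖h x‖ ^ 2) (sphere (0:ℂ) |r|) :=
            (hco.mono hsub).norm.pow 2
          exact continuousOn_const.mul a2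
        · intro z hz
          have h2 := hsph z hz
          simp only [sub_zero, smul_eq_mul, norm_mul, norm_div, norm_pow, h2]
          apply mul_le_mul_of_nonneg_right _ (by positivity)
          apply div_le_div_of_nonneg_left hr.le (by linarith)
          calc r - ‖w‖ = ‖z‖ - ‖w‖ := by rw [h2]
            _ ≤ ‖z - w‖ := norm_sub_norm_le z w
    _ = (r / (r - ‖w‖)) * circleAverage (fun z => ‖h z‖ ^ 2) 0 r := by
        rw [circleAverage_fun_smul, smul_eq_mul]

theorem core {ι : Type*} {N k : ℕ} {F G : ℂ → EuclideanSpace ℂ (Fin N)} {q : ℂ → ℂ}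
    (hF : DifferentiableOn ℂ F (ball 0 1)) (hG : DifferentiableOn ℂ G (ball 0 1))
    (hq : Differentiable ℂ q)
    (hp : ∀ j, ∃ (s : Finset ι) (a : ι → ℂ) (e : ι → ℕ), (∀ i ∈ s, e i ≤ k) ∧
      ∀ ζ ∈ ball (0:ℂ) 1, q ζ * F ζ j = ∑ i ∈ s, a i * ζ ^ e i)
    (hjet : (fun ζ => G ζ - F ζ) =O[𝓝 0] fun ζ : ℂ => ‖ζ‖ ^ (k + 1))
    (hFG : ∀ ε > 0, ∃ ρ < 1, ∀ ζ : ℂ, ρ < ‖ζ‖ → ‖ζ‖ < 1 → ‖G ζ‖ ^ 2 - ‖F ζ‖ ^ 2 ≤ ε)
    {w : ℂ} (hw : ‖w‖ < 1) (j : Fin N) :
    q w * (G w j - F w j) = 0 := by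
  set h : Fin N → ℂ → ℂ := fun j ζ => q ζ * (G ζ j - F ζ j) with hh
  have hFj : ∀ j, DifferentiableOn ℂ (fun ζ => F ζ j) (ball 0 1) := fun j =>
    (differentiableOn_euclidean.mp hF) j
  have hGj : ∀ j, DifferentiableOn ℂ (fun ζ => G ζ j) (ball 0 1) := fun j =>
    (differentiableOn_euclidean.mp hG) j
  have hhd : ∀ j, DifferentiableOn ℂ (h j) (ball 0 1) := fun j =>
    hq.differentiableOn.mul ((hGj j).sub (hFj j))
  have hhO : ∀ j, (h j) =O[𝓝 0] fun ζ : ℂ => ‖ζ‖ ^ (k + 1) := by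
    intro j
    have h1 : (fun ζ => G ζ j - F ζ j) =O[𝓝 0] fun ζ : ℂ => ‖ζ‖ ^ (k + 1) := by
      refine Asymptotics.IsBigO.trans (g := fun ζ => G ζ - F ζ) ?_ hjet
      apply Asymptotics.IsBigO.of_bound 1
      filter_upwards with ζ
      rw [one_mul]
      exact PiLp.norm_apply_le (G ζ - F ζ) j
    have h2 : q =O[𝓝 0] (fun _ : ℂ => (1:ℝ)) :=
      hq.continuous.continuousAt.isBigO_one ℝ
    simpa using h2.mul h1
  obtain ⟨M, hM0, hM⟩ : ∃ M : ℝ, 0 < M ∧ ∀ ζ ∈ closedBall (0:ℂ) 1, ‖q ζ‖ ≤ M := by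
    obtain ⟨M, hM⟩ := (isCompact_closedBall (0:ℂ) 1).exists_bound_of_continuousOn
      hq.continuous.continuousOn
    exact ⟨max M 1, by positivity, fun ζ hζ => (hM ζ hζ).trans (le_max_left _ _)⟩
  have key : ∀ ε > 0, ‖h j w‖ ^ 2 ≤ (2 / (1 - ‖w‖)) * (M ^ 2 * ε) := by
    intro ε hε
    obtain ⟨ρ, hρ1, hρ⟩ := hFG ε hε
    obtain ⟨r, hr1, hr2⟩ := exists_between
      (show max ρ ((1 + ‖w‖) / 2) < 1 from max_lt hρ1 (by linarith))
    have hrρ : ρ < r := lt_of_le_of_lt (le_max_left _ _) hr1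
    have hrw : (1 + ‖w‖) / 2 < r := lt_of_le_of_lt (le_max_right _ _) hr1
    have hwn := norm_nonneg w
    have hr : 0 < r := by linarith
    have hwr : ‖w‖ < r := by linarith
    have hsph : ∀ z ∈ sphere (0:ℂ) |r|, ‖z‖ = r := by
      intro z hz
      have := mem_sphere_zero_iff_norm.mp hz
      rwa [abs_of_pos hr] at this
    have hsub : sphere (0:ℂ) |r| ⊆ ball 0 1 := by
      intro z hz
      rw [mem_ball_zero_iff, hsph z hz]; exact hr2
    have hcF : ContinuousOn F (sphere (0:ℂ) |r|) := hF.continuousOn.mono hsub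
    have hcG : ContinuousOn G (sphere (0:ℂ) |r|) := hG.continuousOn.mono hsub
    have hch : ∀ j, ContinuousOn (h j) (sphere (0:ℂ) |r|) := fun j =>
      (hhd j).continuousOn.mono hsub
    have hcFj : ∀ j, ContinuousOn (fun ζ => F ζ j) (sphere (0:ℂ) |r|) := fun j =>
      (hFj j).continuousOn.mono hsub
    have hcq : ContinuousOn q (sphere (0:ℂ) |r|) := hq.continuous.continuousOn
    -- averages of the mixed terms vanish
    have hmix : ∀ j, circleAverage
        (fun ζ => h j ζ * (starRingEnd ℂ) (q ζ * F ζ j)) 0 r = 0 := by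
      intro j
      obtain ⟨s, a, e, he, hs⟩ := hp j
      have h1 : circleAverage (fun ζ => h j ζ * (starRingEnd ℂ) (q ζ * F ζ j)) 0 r
          = circleAverage (fun ζ => ∑ i ∈ s, ((starRingEnd ℂ) (a i)) •
            (h j ζ * (starRingEnd ℂ) (ζ ^ e i))) 0 r := by
        apply circleAverage_congr_sphere
        intro ζ hζ
        show h j ζ * (starRingEnd ℂ) (q ζ * F ζ j) = ∑ i ∈ s, ((starRingEnd ℂ) (a i)) •
            (h j ζ * (starRingEnd ℂ) (ζ ^ e i))
        rw [hs ζ (hsub hζ), map_sum, Finset.mul_sum]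
        apply Finset.sum_congr rfl
        intro i _
        rw [map_mul, smul_eq_mul]; ring
      rw [h1, circleAverage_fun_sum]
      · apply Finset.sum_eq_zero
        intro i hi
        rw [circleAverage_fun_smul, avg_zero (hhd j) (hhO j) (he i hi) hr hr2, smul_zero]
      · intro i _
        apply ContinuousOn.circleIntegrable'
        have a1 : Continuous (fun ζ : ℂ => (starRingEnd ℂ) (ζ ^ e i)) := by fun_prop
        exact continuousOn_const.mul ((hch j).mul a1.continuousOn)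
    have hmixre : circleAverage
        (fun ζ => ∑ j, (h j ζ * (starRingEnd ℂ) (q ζ * F ζ j)).re) 0 r = 0 := by
      rw [circleAverage_fun_sum]
      · apply Finset.sum_eq_zero
        intro j _
        have h2 := ContinuousLinearMap.circleAverage_comp_comm (c := (0:ℂ)) (R := r)
          (f := fun ζ => h j ζ * (starRingEnd ℂ) (q ζ * F ζ j)) Complex.reCLM (by
            apply ContinuousOn.circleIntegrable'
            exact (hch j).mul (continuous_conj.comp_continuousOn (hcq.mul (hcFj j))))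
        rw [hmix j] at h2
        simpa [Function.comp_def] using h2
      · intro j _
        apply ContinuousOn.circleIntegrable'
        exact Complex.continuous_re.comp_continuousOn
          ((hch j).mul (continuous_conj.comp_continuousOn (hcq.mul (hcFj j))))
    have hid : ∀ ζ, ∑ j, ‖h j ζ‖ ^ 2 = ‖q ζ‖ ^ 2 * (‖G ζ‖ ^ 2 - ‖F ζ‖ ^ 2)
        - 2 * ∑ j, (h j ζ * (starRingEnd ℂ) (q ζ * F ζ j)).re := by
      intro ζ
      rw [EuclideanSpace.norm_sq_eq, EuclideanSpace.norm_sq_eq, ← Finset.sum_sub_distrib,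
        Finset.mul_sum, Finset.mul_sum, ← Finset.sum_sub_distrib]
      apply Finset.sum_congr rfl
      intro j _
      have e1 : ∀ z : ℂ, ‖z‖ ^ 2 = z.re * z.re + z.im * z.im := fun z => by
        rw [← Complex.normSq_eq_norm_sq, Complex.normSq_apply]
      rw [e1, e1, e1, e1]
      simp only [hh, Complex.mul_re, Complex.mul_im, Complex.sub_re, Complex.sub_im,
        Complex.conj_re, Complex.conj_im]
      ring
    have hsum : circleAverage (fun ζ => ∑ j, ‖h j ζ‖ ^ 2) 0 r ≤ M ^ 2 * ε := by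
      have h3 : circleAverage (fun ζ => ∑ j, ‖h j ζ‖ ^ 2) 0 r
          = circleAverage (fun ζ => ‖q ζ‖ ^ 2 * (‖G ζ‖ ^ 2 - ‖F ζ‖ ^ 2)) 0 r := by
        have h4 : (fun ζ => ∑ j, ‖h j ζ‖ ^ 2) = fun ζ => ‖q ζ‖ ^ 2 * (‖G ζ‖ ^ 2 - ‖F ζ‖ ^ 2)
            - (2:ℝ) • ∑ j, (h j ζ * (starRingEnd ℂ) (q ζ * F ζ j)).re := by
          funext ζ
          rw [hid ζ, smul_eq_mul]
        rw [h4, circleAverage_fun_sub, circleAverage_fun_smul, hmixre, smul_zero, sub_zero]
        · apply ContinuousOn.circleIntegrable'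
          exact (hcq.norm.pow 2).mul ((hcG.norm.pow 2).sub (hcF.norm.pow 2))
        · apply ContinuousOn.circleIntegrable'
          have a1 : ContinuousOn (fun ζ => ∑ j, (h j ζ * (starRingEnd ℂ) (q ζ * F ζ j)).re)
              (sphere (0:ℂ) |r|) := by
            apply continuousOn_finsetSum
            intro j _
            exact Complex.continuous_re.comp_continuousOn
              ((hch j).mul (continuous_conj.comp_continuousOn (hcq.mul (hcFj j))))
          exact continuousOn_const.mul a1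
      rw [h3]
      apply circleAverage_mono_on_of_le_circle
      · apply ContinuousOn.circleIntegrable'
        exact (hcq.norm.pow 2).mul ((hcG.norm.pow 2).sub (hcF.norm.pow 2))
      · intro ζ hζ
        have hn := hsph ζ hζ
        have h5 : ‖q ζ‖ ≤ M := hM ζ (by rw [mem_closedBall_zero_iff, hn]; exact hr2.le)
        have h6 := hρ ζ (by rw [hn]; exact hrρ) (by rw [hn]; exact hr2)
        calc ‖q ζ‖ ^ 2 * (‖G ζ‖ ^ 2 - ‖F ζ‖ ^ 2) ≤ ‖q ζ‖ ^ 2 * ε :=
              mul_le_mul_of_nonneg_left h6 (by positivity)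
          _ ≤ M ^ 2 * ε := by
              apply mul_le_mul_of_nonneg_right _ hε.le
              exact pow_le_pow_left₀ (norm_nonneg _) h5 2
    have hone : circleAverage (fun ζ => ‖h j ζ‖ ^ 2) 0 r
        ≤ circleAverage (fun ζ => ∑ j, ‖h j ζ‖ ^ 2) 0 r := by
      apply circleAverage_mono
      · apply ContinuousOn.circleIntegrable'
        exact (hch j).norm.pow 2
      · apply ContinuousOn.circleIntegrable'
        apply continuousOn_finsetSum
        intro j _
        exact (hch j).norm.pow 2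
      · intro ζ _
        exact Finset.single_le_sum (f := fun j => ‖h j ζ‖ ^ 2) (fun i _ => by positivity)
          (Finset.mem_univ j)
    calc ‖h j w‖ ^ 2 ≤ (r / (r - ‖w‖)) * circleAverage (fun z => ‖h j z‖ ^ 2) 0 r :=
          sq_bound (hhd j) hr2 hwr
      _ ≤ (r / (r - ‖w‖)) * (M ^ 2 * ε) := by
          apply mul_le_mul_of_nonneg_left (hone.trans hsum)
          exact div_nonneg hr.le (by linarith)
      _ ≤ (2 / (1 - ‖w‖)) * (M ^ 2 * ε) := by
          apply mul_le_mul_of_nonneg_right _ (by positivity)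
          rw [div_le_div_iff₀ (by linarith) (by linarith)]
          nlinarith
  have hz : ‖h j w‖ ^ 2 ≤ 0 := by
    apply le_of_forall_pos_le_add
    intro δ hδ
    have hw' : 0 < 1 - ‖w‖ := by linarith
    have := key (δ * (1 - ‖w‖) / (2 * M ^ 2)) (by positivity)
    calc ‖h j w‖ ^ 2 ≤ _ := this
      _ = 0 + δ := by field_simp; try ring
  have hz2 : ‖h j w‖ = 0 := by
    have := sq_nonneg ‖h j w‖
    exact pow_eq_zero_iff (two_ne_zero) |>.mp (le_antisymm hz this)
  exact norm_eq_zero.mp hz2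

end Pool.Agent.T6.H21.JD
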