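import Pool.Agent.T6.H21.JD.Lower

/-!
# Jet determination: the contact order of a proper map with a hyperplane
-/

open Metric Topology

namespace Pool.Agent.T6.H21.JD

variable {n N : ℕ}

/-- A function on the ball that is a quotient of two polynomials. -/
def Rat1 (φ : EuclideanSpace ℂ (Fin n) → ℂ) : Prop :=
  ∃ P Q : MvPolynomial (Fin n) ℂ, Q ≠ 0 ∧
    ∀ z ∈ ball (0 : EuclideanSpace ℂ (Fin n)) 1,
      MvPolynomial.eval (z : Fin n → ℂ) Q * φ z = MvPolynomial.eval (z : Fin n → ℂ) P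

lemma Rat1.add {φ ψ : EuclideanSpace ℂ (Fin n) → ℂ} (h1 : Rat1 φ) (h2 : Rat1 ψ) :
    Rat1 (fun z => φ z + ψ z) := by
  obtain ⟨P, Q, hQ, h⟩ := h1
  obtain ⟨P', Q', hQ', h'⟩ := h2
  refine ⟨Q' * P + Q * P', Q * Q', mul_ne_zero hQ hQ', fun z hz => ?_⟩
  rw [map_mul, map_add, map_mul, map_mul, ← h z hz, ← h' z hz]; ring

lemma Rat1.smul {φ : EuclideanSpace ℂ (Fin n) → ℂ} (c : ℂ) (h1 : Rat1 φ) :
    Rat1 (fun z => c * φ z) := by
  obtain ⟨P, Q, hQ, h⟩ := h1
  refine ⟨MvPolynomial.C c * P, Q, hQ, fun z hz => ?_⟩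
  rw [map_mul, MvPolynomial.eval_C, ← h z hz]; ring

lemma Rat1.zero : Rat1 (fun _ : EuclideanSpace ℂ (Fin n) => (0:ℂ)) :=
  ⟨0, 1, one_ne_zero, fun z _ => by simp⟩

lemma Rat1.sum {κ : Type*} (s : Finset κ) {φ : κ → EuclideanSpace ℂ (Fin n) → ℂ}
    (h : ∀ i, Rat1 (φ i)) : Rat1 (fun z => ∑ i ∈ s, φ i z) := by
  classical
  induction s using Finset.induction_on with
  | empty => simpa using Rat1.zero
  | insert a s ha ih =>
    have : (fun z => ∑ i ∈ insert a s, φ i z) = fun z => φ a z + ∑ i ∈ s, φ i z := by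
      funext z; rw [Finset.sum_insert ha]
    rw [this]
    exact (h a).add ih

/-- If `k(n,N) ≤ k`, then no nonzero linear combination of the components of a proper rational
map vanishes to order larger than `k` at the origin. -/
theorem contact {k : ℕ} (hJ : JetDet n N k)
    {f : EuclideanSpace ℂ (Fin n) → EuclideanSpace ℂ (Fin N)} (hf : IsProperHol f)
    (hfr : IsRational f) (v : EuclideanSpace ℂ (Fin N))
    (hv : (fun z => inner ℂ v (f z)) =O[𝓝 0] fun z : EuclideanSpace ℂ (Fin n) => ‖z‖ ^ (k + 1)) :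
    ∀ z ∈ ball (0 : EuclideanSpace ℂ (Fin n)) 1, inner ℂ v (f z) = 0 := by
  classical
  by_cases hv0 : v = 0
  · intro z _; rw [hv0, inner_zero_left]
  have hvn : ((‖v‖ : ℂ) ^ 2) ≠ 0 := by
    apply pow_ne_zero
    exact_mod_cast (norm_pos_iff.mpr hv0).ne'
  set U : EuclideanSpace ℂ (Fin N) ≃ₗᵢ[ℂ] EuclideanSpace ℂ (Fin N) :=
    (Submodule.span ℂ {v}).reflection.trans (LinearIsometryEquiv.neg ℂ) with hU
  have hUx : ∀ x, U x = x - (2 * (inner ℂ v x / (‖v‖ : ℂ) ^ 2)) • v := by
    intro x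
    rw [hU, LinearIsometryEquiv.trans_apply]
    show -((Submodule.span ℂ {v}).reflection x) = _
    rw [Submodule.reflection_singleton_apply]
    rw [two_smul, mul_smul, two_smul]
    simp
  set g : EuclideanSpace ℂ (Fin n) → EuclideanSpace ℂ (Fin N) := fun z => U (f z) with hg
  have hgd : DifferentiableOn ℂ g (ball 0 1) :=
    U.toContinuousLinearEquiv.toContinuousLinearMap.differentiable.comp_differentiableOn hf.1
  have hgp : IsProperHol g := by
    refine ⟨hgd, fun z hz => ?_, fun K hK hc => ?_⟩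
    · have := hf.2.1 z hz
      rw [mem_ball_zero_iff] at this ⊢
      rw [hg]
      simpa using this
    · have h1 : g ⁻¹' K = f ⁻¹' (U ⁻¹' K) := rfl
      rw [h1]
      apply hf.2.2
      · intro x hx
        have := hK hx
        rw [mem_ball_zero_iff, LinearIsometryEquiv.norm_map] at this
        rwa [mem_ball_zero_iff]
      · exact U.toHomeomorph.isCompact_preimage.mpr hc
  have hlin : Rat1 (fun z => inner ℂ v (f z)) := by
    have : (fun z => inner ℂ v (f z)) = fun z => ∑ i, (starRingEnd ℂ) (v i) * f z i := by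
      funext z
      rw [PiLp.inner_apply]
      apply Finset.sum_congr rfl
      intro i _
      rw [RCLike.inner_apply, mul_comm]
    rw [this]
    exact Rat1.sum _ fun i => Rat1.smul _ (hfr i)
  have hgr : IsRational g := by
    intro j
    have h1 : Rat1 (fun z => f z j + (-(2 / (‖v‖ : ℂ) ^ 2) * v j) * inner ℂ v (f z)) :=
      Rat1.add (hfr j) (Rat1.smul _ hlin)
    have h2 : (fun z => f z j + (-(2 / (‖v‖ : ℂ) ^ 2) * v j) * inner ℂ v (f z))
        = fun z => g z j := by
      funext z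
      rw [hg]
      simp only [hUx, PiLp.sub_apply, PiLp.smul_apply, smul_eq_mul]
      ring
    rw [h2] at h1
    exact h1
  have hjet : SameJet k f g := by
    refine Asymptotics.IsBigO.trans ?_ hv
    apply Asymptotics.IsBigO.of_bound (2 / ‖v‖ ^ 2 * ‖v‖)
    filter_upwards with z
    have h1 : g z - f z = -((2 * (inner ℂ v (f z) / (‖v‖ : ℂ) ^ 2)) • v) := by
      rw [hg]; simp only [hUx]; abel
    rw [h1, norm_neg, norm_smul, norm_mul, norm_div, norm_pow, Complex.norm_real, norm_norm]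
    rw [Complex.norm_two]
    apply le_of_eq
    ring
  intro z hz
  have h1 := hJ f g hf hfr hgp hgr hjet z hz
  rw [hg] at h1
  simp only [hUx] at h1
  have h2 : (2 * (inner ℂ v (f z) / (‖v‖ : ℂ) ^ 2)) • v = 0 := by
    have := sub_eq_self.mp h1
    exact this
  rcases smul_eq_zero.mp h2 with h | h
  · have h3 : inner ℂ v (f z) / (‖v‖ : ℂ) ^ 2 = 0 := by
      rcases mul_eq_zero.mp h with h | h
      · norm_num at h
      · exact h
    rcases div_eq_zero_iff.mp h3 with h | h
    · exact h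
    · exact absurd h hvn
  · exact absurd h hv0

end Pool.Agent.T6.H21.JD
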