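import Mathlib

/-!
# Jet determination of proper rational maps between balls: definitions
-/

open Metric Topology

namespace Pool.Agent.T6.H21.JD

/-- A proper holomorphic map from the open unit ball of `ℂⁿ` to the open unit ball of `ℂᴺ`
(only the values on the ball matter). -/
def IsProperHol {n N : ℕ} (f : EuclideanSpace ℂ (Fin n) → EuclideanSpace ℂ (Fin N)) : Prop :=
  DifferentiableOn ℂ f (ball 0 1) ∧ (∀ z ∈ ball (0 : EuclideanSpace ℂ (Fin n)) 1, f z ∈ ball 0 1) ∧
    ∀ K : Set (EuclideanSpace ℂ (Fin N)), K ⊆ ball 0 1 → IsCompact K →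
      IsCompact (ball (0 : EuclideanSpace ℂ (Fin n)) 1 ∩ f ⁻¹' K)

/-- Each component is a quotient of two polynomials on the ball. -/
def IsRational {n N : ℕ} (f : EuclideanSpace ℂ (Fin n) → EuclideanSpace ℂ (Fin N)) : Prop :=
  ∀ j, ∃ P Q : MvPolynomial (Fin n) ℂ, Q ≠ 0 ∧
    ∀ z ∈ ball (0 : EuclideanSpace ℂ (Fin n)) 1,
      MvPolynomial.eval (z : Fin n → ℂ) Q * f z j = MvPolynomial.eval (z : Fin n → ℂ) P

/-- `f = P/Q` with polynomials `P₁, …, P_N` of degree at most `d` and a polynomial `Q ≠ 0`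
of degree at most `d`. -/
def DegLE {n N : ℕ} (d : ℕ)
    (f : EuclideanSpace ℂ (Fin n) → EuclideanSpace ℂ (Fin N)) : Prop :=
  ∃ (Q : MvPolynomial (Fin n) ℂ) (P : Fin N → MvPolynomial (Fin n) ℂ), Q ≠ 0 ∧
    Q.totalDegree ≤ d ∧ (∀ j, (P j).totalDegree ≤ d) ∧
    ∀ z ∈ ball (0 : EuclideanSpace ℂ (Fin n)) 1, ∀ j,
      MvPolynomial.eval (z : Fin n → ℂ) Q * f z j = MvPolynomial.eval (z : Fin n → ℂ) (P j)

/-- `f` and `g` have the same Taylor polynomial of order `k` at the origin. -/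
def SameJet {n N : ℕ} (k : ℕ)
    (f g : EuclideanSpace ℂ (Fin n) → EuclideanSpace ℂ (Fin N)) : Prop :=
  (fun z => g z - f z) =O[𝓝 0] fun z : EuclideanSpace ℂ (Fin n) => ‖z‖ ^ (k + 1)

/-- Every proper rational map from the ball of `ℂⁿ` to the ball of `ℂᴺ` is determined by its
`k`-jet at the origin, that is `k(n,N) ≤ k`. -/
def JetDet (n N k : ℕ) : Prop :=
  ∀ f g : EuclideanSpace ℂ (Fin n) → EuclideanSpace ℂ (Fin N),
    IsProperHol f → IsRational f → IsProperHol g → IsRational g → SameJet k f g →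
      ∀ z ∈ ball (0 : EuclideanSpace ℂ (Fin n)) 1, g z = f z

/-- The same inside the class of the proper rational maps of degree at most `d`. -/
def JetDetDeg (n N d k : ℕ) : Prop :=
  ∀ f g : EuclideanSpace ℂ (Fin n) → EuclideanSpace ℂ (Fin N),
    IsProperHol f → DegLE d f → IsProperHol g → DegLE d g → SameJet k f g →
      ∀ z ∈ ball (0 : EuclideanSpace ℂ (Fin n)) 1, g z = f z

end Pool.Agent.T6.H21.JD
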