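import Pool.Agent.T6.H21.JD.Defs
import Pool.Agent.T6.H21.JD.Circle

/-!
# Jet determination, the upper bound
-/

open Metric Topology Filter

namespace Pool.Agent.T6.H21.JD

variable {n N : ℕ}

lemma near_sphere {f : EuclideanSpace ℂ (Fin n) → EuclideanSpace ℂ (Fin N)}
    (hf : IsProperHol f) {ε : ℝ} (hε : 0 < ε) :
    ∃ ρ < (1:ℝ), ∀ z, ρ < ‖z‖ → ‖z‖ < 1 → 1 - ‖f z‖ ^ 2 ≤ ε := by
  set δ : ℝ := min ε 1 / 2 with hδ
  have hδ0 : 0 < δ := by rw [hδ]; positivity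
  have hδ1 : δ ≤ 1 / 2 := by
    rw [hδ]; have := min_le_right ε 1; linarith
  have hδε : 2 * δ ≤ ε := by
    rw [hδ]; have := min_le_left ε 1; linarith
  have hK := hf.2.2 (closedBall 0 (1 - δ)) (closedBall_subset_ball (by linarith))
    (isCompact_closedBall _ _)
  have hout : ∀ z, ‖z‖ < 1 → z ∉ ball (0 : EuclideanSpace ℂ (Fin n)) 1 ∩
      f ⁻¹' (closedBall 0 (1 - δ)) → 1 - ‖f z‖ ^ 2 ≤ ε := by
    intro z hz hnot
    have h1 : ¬ ‖f z‖ ≤ 1 - δ := by
      intro h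
      exact hnot ⟨by simpa using hz, by simpa using h⟩
    push Not at h1
    nlinarith
  rcases Set.eq_empty_or_nonempty (ball (0 : EuclideanSpace ℂ (Fin n)) 1 ∩
      f ⁻¹' (closedBall 0 (1 - δ))) with he | hne
  · refine ⟨0, one_pos, fun z _ hz => hout z hz ?_⟩
    rw [he]; exact Set.notMem_empty z
  · obtain ⟨z₀, hz₀, hmax⟩ := hK.exists_isMaxOn hne continuous_norm.continuousOn
    refine ⟨‖z₀‖, by simpa using hz₀.1, fun z h1 h2 => hout z h2 fun hz => ?_⟩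
    have := hmax hz
    simp only [Set.mem_ofPred_eq] at this
    linarith

lemma eval_slice (P : MvPolynomial (Fin n) ℂ) (u : EuclideanSpace ℂ (Fin n)) (ζ : ℂ) :
    MvPolynomial.eval ((ζ • u : EuclideanSpace ℂ (Fin n)) : Fin n → ℂ) P
      = ∑ d ∈ P.support, (P.coeff d * ∏ i, u i ^ d i) * ζ ^ (d.sum fun _ e => e) := by
  rw [MvPolynomial.eval_eq']
  apply Finset.sum_congr rfl
  intro d _
  have h1 : (d.sum fun _ e => e) = ∑ i, d i := Finsupp.sum_fintype _ _ (fun _ => rfl)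
  rw [h1, ← Finset.prod_pow_eq_pow_sum, mul_assoc, ← Finset.prod_mul_distrib]
  congr 1
  apply Finset.prod_congr rfl
  intro i _
  rw [PiLp.smul_apply, smul_eq_mul, mul_pow, mul_comm]

lemma dense_ne {Q : MvPolynomial (Fin n) ℂ} (hQ : Q ≠ 0) {U : Set (EuclideanSpace ℂ (Fin n))}
    {x : EuclideanSpace ℂ (Fin n)} (hU : U ∈ 𝓝 x) :
    ∃ y ∈ U, MvPolynomial.eval (y : Fin n → ℂ) Q ≠ 0 := by
  by_contra hcon
  push Not at hcon
  apply hQ
  have hc : Continuous (fun y : Fin n → ℂ => (WithLp.toLp 2 y : EuclideanSpace ℂ (Fin n))) :=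
    PiLp.continuous_toLp 2 _
  have h1 : (fun y : Fin n → ℂ => (WithLp.toLp 2 y : EuclideanSpace ℂ (Fin n))) ⁻¹' U
      ∈ 𝓝 (x : Fin n → ℂ) := hc.continuousAt.preimage_mem_nhds hU
  obtain ⟨δ, hδ, hb⟩ := Metric.mem_nhds_iff.mp h1
  rw [ball_pi _ hδ] at hb
  apply MvPolynomial.funext_set (fun i => ball (x i) δ)
  · intro i
    exact infinite_of_mem_nhds (x i) (ball_mem_nhds _ hδ)
  · intro y hy
    rw [map_zero]
    exact hcon _ (hb hy)

/-- Numerators of degree at most `k`: the map is determined by its `k`-jet among all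
holomorphic maps of the ball into the closed ball. -/
theorem upper {k : ℕ} {f g : EuclideanSpace ℂ (Fin n) → EuclideanSpace ℂ (Fin N)}
    (hf : IsProperHol f) {Q : MvPolynomial (Fin n) ℂ} {P : Fin N → MvPolynomial (Fin n) ℂ}
    (hQ : Q ≠ 0) (hP : ∀ j, (P j).totalDegree ≤ k)
    (hfr : ∀ z ∈ ball (0 : EuclideanSpace ℂ (Fin n)) 1, ∀ j,
      MvPolynomial.eval (z : Fin n → ℂ) Q * f z j = MvPolynomial.eval (z : Fin n → ℂ) (P j))
    (hg : DifferentiableOn ℂ g (ball 0 1))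
    (hg1 : ∀ z ∈ ball (0 : EuclideanSpace ℂ (Fin n)) 1, ‖g z‖ ≤ 1)
    (hjet : SameJet k f g) :
    ∀ z ∈ ball (0 : EuclideanSpace ℂ (Fin n)) 1, g z = f z := by
  have hslice : ∀ u : EuclideanSpace ℂ (Fin n), ‖u‖ = 1 → ∀ w : ℂ, ‖w‖ < 1 → ∀ j,
      MvPolynomial.eval ((w • u : EuclideanSpace ℂ (Fin n)) : Fin n → ℂ) Q
        * (g (w • u) j - f (w • u) j) = 0 := by
    intro u hu w hw j
    have hmap : Set.MapsTo (fun ζ : ℂ => ζ • u) (ball 0 1) (ball 0 1) := by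
      intro ζ hζ
      rw [mem_ball_zero_iff] at hζ ⊢
      rw [norm_smul, hu, mul_one]; exact hζ
    have hlin : DifferentiableOn ℂ (fun ζ : ℂ => ζ • u) (ball 0 1) := by fun_prop
    apply core (ι := Fin n →₀ ℕ) (k := k) (F := fun ζ => f (ζ • u)) (G := fun ζ => g (ζ • u))
      (q := fun ζ => MvPolynomial.eval ((ζ • u : EuclideanSpace ℂ (Fin n)) : Fin n → ℂ) Q)
    · exact hf.1.comp hlin hmap
    · exact hg.comp hlin hmap
    · have : (fun ζ : ℂ => MvPolynomial.eval ((ζ • u : EuclideanSpace ℂ (Fin n)) : Fin n → ℂ) Q)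
          = fun ζ => ∑ d ∈ Q.support, (Q.coeff d * ∏ i, u i ^ d i) *
            ζ ^ (d.sum fun _ e => e) := by
        funext ζ; exact eval_slice Q u ζ
      rw [this]
      fun_prop
    · intro j
      refine ⟨(P j).support, fun d => (P j).coeff d * ∏ i, u i ^ d i,
        fun d => d.sum fun _ e => e, ?_, ?_⟩
      · intro d hd
        exact (MvPolynomial.le_totalDegree hd).trans (hP j)
      · intro ζ hζ
        show MvPolynomial.eval ((ζ • u : EuclideanSpace ℂ (Fin n)) : Fin n → ℂ) Q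
          * f (ζ • u) j = _
        rw [hfr (ζ • u) (hmap hζ) j, eval_slice]
    · have ht : Tendsto (fun ζ : ℂ => ζ • u) (𝓝 0) (𝓝 0) := by
        have : Continuous fun ζ : ℂ => ζ • u := by fun_prop
        simpa using this.tendsto 0
      have h1 := hjet.comp_tendsto ht
      refine h1.congr (fun ζ => rfl) (fun ζ => ?_)
      show ‖ζ • u‖ ^ (k + 1) = ‖ζ‖ ^ (k + 1)
      rw [norm_smul, hu, mul_one]
    · intro ε hε
      obtain ⟨ρ, hρ, h1⟩ := near_sphere hf hε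
      refine ⟨ρ, hρ, fun ζ h2 h3 => ?_⟩
      have hn : ‖ζ • u‖ = ‖ζ‖ := by rw [norm_smul, hu, mul_one]
      have h4 := h1 (ζ • u) (by rw [hn]; exact h2) (by rw [hn]; exact h3)
      have h5 : ‖g (ζ • u)‖ ≤ 1 := hg1 _ (by rw [mem_ball_zero_iff, hn]; exact h3)
      have h6 : ‖g (ζ • u)‖ ^ 2 ≤ 1 := pow_le_one₀ (norm_nonneg _) h5
      show ‖g (ζ • u)‖ ^ 2 - ‖f (ζ • u)‖ ^ 2 ≤ ε
      linarith
    · exact hw
  have hzero : g 0 = f 0 := by
    obtain ⟨C, hC⟩ := hjet.bound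
    have := hC.self_of_nhds
    simp only [norm_zero, ne_eq, Nat.add_eq_zero_iff, one_ne_zero, and_false, not_false_eq_true,
      zero_pow, mul_zero, norm_le_zero_iff] at this
    exact sub_eq_zero.mp this
  have hall : ∀ y ∈ ball (0 : EuclideanSpace ℂ (Fin n)) 1,
      MvPolynomial.eval (y : Fin n → ℂ) Q ≠ 0 → g y = f y := by
    intro y hy hQy
    by_cases hy0 : y = 0
    · rw [hy0]; exact hzero
    have hyn : 0 < ‖y‖ := norm_pos_iff.mpr hy0
    set u : EuclideanSpace ℂ (Fin n) := ((‖y‖ : ℂ)⁻¹) • y with hu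
    have hun : ‖u‖ = 1 := by
      rw [hu, norm_smul, norm_inv, Complex.norm_real, norm_norm, inv_mul_cancel₀ hyn.ne']
    have hyu : ((‖y‖ : ℂ)) • u = y := by
      rw [hu, smul_smul, mul_inv_cancel₀ (by exact_mod_cast hyn.ne'), one_smul]
    have hw : ‖(‖y‖ : ℂ)‖ < 1 := by
      rw [Complex.norm_real, norm_norm]; simpa using hy
    ext j
    have h1 := hslice u hun (‖y‖ : ℂ) hw j
    rw [hyu] at h1
    rcases mul_eq_zero.mp h1 with h | h
    · exact absurd h hQy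
    · exact sub_eq_zero.mp h
  intro x hx
  by_contra hne
  have hcg : ContinuousAt g x := (hg.differentiableAt (isOpen_ball.mem_nhds hx)).continuousAt
  have hcf : ContinuousAt f x := (hf.1.differentiableAt (isOpen_ball.mem_nhds hx)).continuousAt
  have h1 : {y | g y ≠ f y} ∈ 𝓝 x := by
    have := (hcg.sub hcf).eventually_ne (sub_ne_zero.mpr hne)
    filter_upwards [this] with y hy h
    apply hy
    rw [Pi.sub_apply, h, sub_self]
  have h2 : ball (0 : EuclideanSpace ℂ (Fin n)) 1 ∩ {y | g y ≠ f y} ∈ 𝓝 x :=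
    inter_mem (isOpen_ball.mem_nhds hx) h1
  obtain ⟨y, hy, hQy⟩ := dense_ne hQ h2
  exact hy.2 (hall y hy.1 hQy)

end Pool.Agent.T6.H21.JD
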