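import Pool.Agent.T6.H21.JD.Refl
import Pool.Agent.T6.H21.JD.Upper

/-!
# Jet determination: contact at interior points
-/

open Metric Topology

namespace Pool.Agent.T6.H21.JD

variable {n N : ℕ}

lemma Rat1.mul {φ ψ : EuclideanSpace ℂ (Fin n) → ℂ} (h1 : Rat1 φ) (h2 : Rat1 ψ) :
    Rat1 (fun z => φ z * ψ z) := by
  obtain ⟨P, Q, hQ, h⟩ := h1
  obtain ⟨P', Q', hQ', h'⟩ := h2
  refine ⟨P * P', Q * Q', mul_ne_zero hQ hQ', fun z hz => ?_⟩
  rw [map_mul, map_mul, ← h z hz, ← h' z hz]; ring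

lemma Rat1.const (c : ℂ) : Rat1 (fun _ : EuclideanSpace ℂ (Fin n) => c) :=
  ⟨MvPolynomial.C c, 1, one_ne_zero, fun z _ => by simp⟩

lemma Rat1.coord (i : Fin n) : Rat1 (fun z : EuclideanSpace ℂ (Fin n) => z i) :=
  ⟨MvPolynomial.X i, 1, one_ne_zero, fun z _ => by simp⟩

/-- Multiplicative inverse of a rational function without zeros on the ball. -/
lemma Rat1.inv {φ : EuclideanSpace ℂ (Fin n) → ℂ} (h1 : Rat1 φ)
    (h0 : ∀ z ∈ ball (0 : EuclideanSpace ℂ (Fin n)) 1, φ z ≠ 0) :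
    Rat1 (fun z => (φ z)⁻¹) := by
  obtain ⟨P, Q, hQ, h⟩ := h1
  refine ⟨Q, P, ?_, fun z hz => ?_⟩
  · intro hP
    obtain ⟨y, hy, hQy⟩ := dense_ne hQ (isOpen_ball.mem_nhds
      (mem_ball_self (x := (0 : EuclideanSpace ℂ (Fin n))) one_pos))
    have := h y hy
    rw [hP, map_zero] at this
    rcases mul_eq_zero.mp this with h2 | h2
    · exact hQy h2
    · exact h0 y hy h2
  · rw [← h z hz, mul_assoc, mul_inv_cancel₀ (h0 z hz), mul_one]

lemma Rat1.congr {φ ψ : EuclideanSpace ℂ (Fin n) → ℂ} (h1 : Rat1 φ)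
    (h : ∀ z ∈ ball (0 : EuclideanSpace ℂ (Fin n)) 1, ψ z = φ z) : Rat1 ψ := by
  obtain ⟨P, Q, hQ, h'⟩ := h1
  exact ⟨P, Q, hQ, fun z hz => by rw [h z hz]; exact h' z hz⟩

lemma Rat1.inn {f : EuclideanSpace ℂ (Fin n) → EuclideanSpace ℂ (Fin N)}
    (hfr : IsRational f) (v : EuclideanSpace ℂ (Fin N)) :
    Rat1 (fun z => inner ℂ v (f z)) := by
  have : (fun z => inner ℂ v (f z)) = fun z => ∑ i, (starRingEnd ℂ) (v i) * f z i := by
    funext z
    rw [PiLp.inner_apply]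
    apply Finset.sum_congr rfl
    intro i _
    rw [RCLike.inner_apply, mul_comm]
  rw [this]
  exact Rat1.sum _ fun i => Rat1.smul _ (hfr i)

lemma Rat1.tauf {f : EuclideanSpace ℂ (Fin n) → EuclideanSpace ℂ (Fin N)}
    (hfr : IsRational f) (e : ℂ) (v : EuclideanSpace ℂ (Fin N)) :
    Rat1 (fun z => tau e v (f z)) := by
  have h1 : Rat1 (fun z => (2 / ((‖v‖ ^ 2 - ‖e‖ ^ 2 : ℝ) : ℂ)) *
      (inner ℂ v (f z) + -(starRingEnd ℂ) e)) :=
    Rat1.smul _ (Rat1.add (Rat1.inn hfr v) (Rat1.const _))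
  refine h1.congr fun z _ => ?_
  rw [tau]; ring

lemma rat_refl_comp {e : ℂ} {v : EuclideanSpace ℂ (Fin N)} (hE : ‖v‖ ^ 2 - ‖e‖ ^ 2 ≠ 0)
    {f : EuclideanSpace ℂ (Fin n) → EuclideanSpace ℂ (Fin N)}
    (hb : ∀ z ∈ ball (0 : EuclideanSpace ℂ (Fin n)) 1, ‖f z‖ < 1) (hfr : IsRational f) :
    IsRational (fun z => refl e v (f z)) := by
  intro j
  have hD : Rat1 (fun z => 1 + (-e) * tau e v (f z)) :=
    Rat1.add (Rat1.const 1) (Rat1.smul _ (Rat1.tauf hfr e v))
  have hDi : Rat1 (fun z => (1 + (-e) * tau e v (f z))⁻¹) := by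
    apply Rat1.inv hD
    intro z hz h
    apply den_ne hE (hb z hz)
    rw [← h]; ring
  have hnum : Rat1 (fun z => f z j + (-(v j)) * tau e v (f z)) :=
    Rat1.add (hfr j) (Rat1.smul _ (Rat1.tauf hfr e v))
  have h := hDi.mul hnum
  have h2 : Rat1 (fun z => refl e v (f z) j) := by
    refine h.congr fun z _ => ?_
    rw [refl, PiLp.smul_apply, PiLp.sub_apply, PiLp.smul_apply, smul_eq_mul, smul_eq_mul]
    ring
  exact h2

lemma rat_eval_comp {φ : EuclideanSpace ℂ (Fin n) → EuclideanSpace ℂ (Fin n)}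
    (hφ : IsRational φ) (P : MvPolynomial (Fin n) ℂ) :
    Rat1 (fun z => MvPolynomial.eval (φ z : Fin n → ℂ) P) := by
  induction P using MvPolynomial.induction_on with
  | C a => simpa using Rat1.const a
  | add p q hp hq =>
    simp only [map_add]
    exact hp.add hq
  | mul_X p i hp =>
    simp only [map_mul, MvPolynomial.eval_X]
    exact hp.mul (hφ i)

lemma rat_comp_refl {e : ℂ} {v : EuclideanSpace ℂ (Fin n)} (hE : ‖v‖ ^ 2 - ‖e‖ ^ 2 ≠ 0)
    {f : EuclideanSpace ℂ (Fin n) → EuclideanSpace ℂ (Fin N)} (hfr : IsRational f) :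
    IsRational (fun z => f (refl e v z)) := by
  have hid : IsRational (fun z : EuclideanSpace ℂ (Fin n) => z) := fun j => Rat1.coord j
  have hφ : IsRational (fun z : EuclideanSpace ℂ (Fin n) => refl e v z) :=
    rat_refl_comp hE (fun z hz => by simpa using hz) hid
  intro j
  obtain ⟨P, Q, hQ, h⟩ := hfr j
  obtain ⟨R1, R2, hR2, hR⟩ := rat_eval_comp hφ Q
  obtain ⟨S1, S2, hS2, hS⟩ := rat_eval_comp hφ P
  have hmaps : ∀ z ∈ ball (0 : EuclideanSpace ℂ (Fin n)) 1,
      refl e v z ∈ ball (0 : EuclideanSpace ℂ (Fin n)) 1 := by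
    intro z hz
    rw [mem_ball_zero_iff] at hz ⊢
    exact refl_lt hE hz
  refine ⟨R2 * S1, R1 * S2, mul_ne_zero ?_ hS2, fun z hz => ?_⟩
  · intro hR1
    obtain ⟨y, hy, hQy⟩ := dense_ne hQ (isOpen_ball.mem_nhds
      (mem_ball_self (x := (0 : EuclideanSpace ℂ (Fin n))) one_pos))
    have hy1 : ‖y‖ < 1 := by simpa using hy
    have hxb : refl e v y ∈ ball (0 : EuclideanSpace ℂ (Fin n)) 1 := hmaps y hy
    have hc : ContinuousAt (fun z => MvPolynomial.eval (refl e v z : Fin n → ℂ) Q)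
        (refl e v y) := by
      have h1 : ContinuousAt (refl e v) (refl e v y) :=
        ((refl_diff hE).differentiableAt (isOpen_ball.mem_nhds hxb)).continuousAt
      have h2 : Continuous fun x : EuclideanSpace ℂ (Fin n) =>
          MvPolynomial.eval (x : Fin n → ℂ) Q :=
        (MvPolynomial.continuous_eval Q).comp (PiLp.continuous_ofLp 2 _)
      exact h2.continuousAt.comp h1
    have hne : MvPolynomial.eval (refl e v (refl e v y) : Fin n → ℂ) Q ≠ 0 := by
      rw [refl_refl hE hy1]; exact hQy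
    have hev := hc.eventually_ne hne
    obtain ⟨x, hx, hR2x⟩ := dense_ne hR2 (Filter.inter_mem hev (isOpen_ball.mem_nhds hxb))
    have h3 := hR x hx.2
    rw [hR1, map_zero] at h3
    rcases mul_eq_zero.mp h3 with h4 | h4
    · exact hR2x h4
    · exact hx.1 h4
  · have h1 := h (refl e v z) (hmaps z hz)
    have h2 : MvPolynomial.eval (z : Fin n → ℂ) R2
        * MvPolynomial.eval (refl e v z : Fin n → ℂ) Q = MvPolynomial.eval (z : Fin n → ℂ) R1 :=
      hR z hz
    have h3 : MvPolynomial.eval (z : Fin n → ℂ) S2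
        * MvPolynomial.eval (refl e v z : Fin n → ℂ) P = MvPolynomial.eval (z : Fin n → ℂ) S1 :=
      hS z hz
    show MvPolynomial.eval (z : Fin n → ℂ) (R1 * S2) * f (refl e v z) j = _
    rw [map_mul, map_mul, ← h2, ← h3, ← h1]
    ring

lemma refl_sub_eq {m : ℕ} {e : ℂ} {v w : EuclideanSpace ℂ (Fin m)}
    (hD : 1 - tau e v w * e ≠ 0) :
    refl e v w - w = tau e v w • ((1 - tau e v w * e)⁻¹ • (e • w - v)) := by
  have h0 : refl e v w = (1 - tau e v w * e)⁻¹ • (w - tau e v w • v) := rfl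
  rw [h0]
  generalize tau e v w = t at hD ⊢
  have key : (w - t • v) - (1 - t * e) • w = t • (e • w - v) := by
    rw [sub_smul, one_smul, smul_sub, smul_smul]; abel
  have h5 : (1 - t * e)⁻¹ • ((w - t • v) - (1 - t * e) • w)
      = (1 - t * e)⁻¹ • (w - t • v) - w := by
    rw [smul_sub, smul_smul ((1 - t * e)⁻¹) (1 - t * e) w, inv_mul_cancel₀ hD, one_smul]
  rw [smul_comm t, ← key, h5]

lemma cont_aux {m : ℕ} {e : ℂ} {v : EuclideanSpace ℂ (Fin m)} (hE : ‖v‖ ^ 2 - ‖e‖ ^ 2 ≠ 0)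
    {f : EuclideanSpace ℂ (Fin n) → EuclideanSpace ℂ (Fin m)} (hcf : ContinuousAt f 0)
    (hf0 : ‖f 0‖ < 1) :
    ContinuousAt (fun z => (1 - tau e v (f z) * e)⁻¹ • (e • f z - v)) 0 := by
  have hne := den_ne hE hf0
  have hct : Continuous (tau e v) := (tau_diff e v).continuous
  generalize tau e v = T at hne hct
  have h2 : ContinuousAt (fun z => T (f z)) 0 := hct.continuousAt.comp hcf
  have h1 : ContinuousAt (fun z => 1 - T (f z) * e) 0 :=
    continuousAt_const.sub (h2.mul continuousAt_const)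
  have h3 : ContinuousAt (fun z => (1 - T (f z) * e)⁻¹) 0 := ContinuousAt.inv₀ h1 hne
  have h4 : ContinuousAt (fun z => e • f z - v) 0 := by fun_prop
  exact h3.smul h4

/-- Contact with an affine hyperplane at the origin. -/
theorem contact_affine {k : ℕ} (hJ : JetDet n N k)
    {f : EuclideanSpace ℂ (Fin n) → EuclideanSpace ℂ (Fin N)} (hf : IsProperHol f)
    (hfr : IsRational f) (v : EuclideanSpace ℂ (Fin N)) (c : ℂ)
    (hv : (fun z => inner ℂ v (f z) - c) =O[𝓝 0]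
      fun z : EuclideanSpace ℂ (Fin n) => ‖z‖ ^ (k + 1)) :
    ∀ z ∈ ball (0 : EuclideanSpace ℂ (Fin n)) 1, inner ℂ v (f z) = c := by
  have h0b : (0 : EuclideanSpace ℂ (Fin n)) ∈ ball (0 : EuclideanSpace ℂ (Fin n)) 1 :=
    mem_ball_self one_pos
  have hzero : inner ℂ v (f 0) = c := by
    obtain ⟨C, hC⟩ := hv.bound
    have := hC.self_of_nhds
    simp only [norm_zero, ne_eq, Nat.add_eq_zero_iff, one_ne_zero, and_false, not_false_eq_true,
      zero_pow, mul_zero, norm_le_zero_iff] at this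
    exact sub_eq_zero.mp this
  by_cases hv0 : v = 0
  · intro z _
    rw [hv0, inner_zero_left]
    rw [hv0, inner_zero_left] at hzero
    exact hzero
  have hvn : 0 < ‖v‖ := norm_pos_iff.mpr hv0
  have hf0 : ‖f 0‖ < 1 := by simpa using hf.2.1 0 h0b
  have hcv : ‖c‖ < ‖v‖ := by
    rw [← hzero]
    calc ‖inner ℂ v (f 0)‖ ≤ ‖v‖ * ‖f 0‖ := norm_inner_le_norm v (f 0)
      _ < ‖v‖ * 1 := mul_lt_mul_of_pos_left hf0 hvn
      _ = ‖v‖ := mul_one _
  set e : ℂ := (starRingEnd ℂ) c with he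
  have hen : ‖e‖ = ‖c‖ := by rw [he, RCLike.norm_conj]
  have hE : ‖v‖ ^ 2 - ‖e‖ ^ 2 ≠ 0 := by
    rw [hen]
    have := pow_lt_pow_left₀ hcv (norm_nonneg c) two_ne_zero
    linarith
  have hball : ∀ z ∈ ball (0 : EuclideanSpace ℂ (Fin n)) 1, ‖f z‖ < 1 := by
    intro z hz; simpa using hf.2.1 z hz
  have hgp := proper_refl_comp hE hf
  have hgr := rat_refl_comp hE hball hfr
  have htau : ∀ z, tau e v (f z)
      = (2 / ((‖v‖ ^ 2 - ‖e‖ ^ 2 : ℝ) : ℂ)) * (inner ℂ v (f z) - c) := by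
    intro z
    rw [tau, he, Complex.conj_conj]; ring
  have hdiff : ∀ z ∈ ball (0 : EuclideanSpace ℂ (Fin n)) 1, refl e v (f z) - f z
      = tau e v (f z) • ((1 - tau e v (f z) * e)⁻¹ • (e • f z - v)) := by
    intro z hz
    have hD := den_ne hE (hball z hz)
    exact refl_sub_eq hD
  have hjet : SameJet k f (fun z => refl e v (f z)) := by
    have hcont : ContinuousAt (fun z => (1 - tau e v (f z) * e)⁻¹ • (e • f z - v)) 0 :=
      cont_aux hE (hf.1.differentiableAt (isOpen_ball.mem_nhds h0b)).continuousAt hf0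
    have h1 : (fun z => (1 - tau e v (f z) * e)⁻¹ • (e • f z - v)) =O[𝓝 0]
        (fun _ : EuclideanSpace ℂ (Fin n) => (1:ℝ)) := hcont.isBigO_one ℝ
    have h2 : (fun z => tau e v (f z)) =O[𝓝 0]
        fun z : EuclideanSpace ℂ (Fin n) => ‖z‖ ^ (k + 1) := by
      have : (fun z => tau e v (f z)) = fun z =>
          (2 / ((‖v‖ ^ 2 - ‖e‖ ^ 2 : ℝ) : ℂ)) * (inner ℂ v (f z) - c) := funext htau
      rw [this]
      exact hv.const_mul_left _
    have h3 := h2.smul h1
    simp only [smul_eq_mul, mul_one] at h3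
    refine h3.congr' ?_ (Filter.EventuallyEq.refl _ _)
    filter_upwards [isOpen_ball.mem_nhds h0b] with z hz
    exact (hdiff z hz).symm
  intro z hz
  have h1 := hJ f _ hf hfr hgp hgr hjet z hz
  have h2 := hdiff z hz
  rw [h1, sub_self] at h2
  have hD := den_ne hE (hball z hz)
  rcases smul_eq_zero.mp h2.symm with h | h
  · rw [htau] at h
    have hEc : (2 / ((‖v‖ ^ 2 - ‖e‖ ^ 2 : ℝ) : ℂ)) ≠ 0 :=
      div_ne_zero two_ne_zero (by exact_mod_cast hE)
    rcases mul_eq_zero.mp h with h' | h'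
    · exact absurd h' hEc
    · exact sub_eq_zero.mp h'
  · rcases smul_eq_zero.mp h with h' | h'
    · exact absurd h' (inv_ne_zero hD)
    · -- `e • f z = v` is impossible, since `‖e‖ < ‖v‖`
      exfalso
      have h3 : ‖v‖ = ‖e‖ * ‖f z‖ := by
        rw [← norm_smul, sub_eq_zero.mp h']
      have h4 : ‖e‖ * ‖f z‖ ≤ ‖e‖ * 1 :=
        mul_le_mul_of_nonneg_left (hball z hz).le (norm_nonneg _)
      rw [hen] at h3 h4
      linarith

/-- A reflection of the ball that exchanges the origin with a given point. -/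
lemma exists_refl {a : EuclideanSpace ℂ (Fin n)} (ha : ‖a‖ < 1) :
    ∃ e : ℂ, ‖a‖ ^ 2 - ‖e‖ ^ 2 ≠ 0 ∧ refl e a 0 = a := by
  have ha2 : ‖a‖ ^ 2 < 1 := pow_lt_one₀ (norm_nonneg _) ha two_ne_zero
  set s : ℝ := Real.sqrt (1 - ‖a‖ ^ 2) with hs
  have hs0 : 0 < s := Real.sqrt_pos.mpr (by linarith)
  have hs2 : s ^ 2 = 1 - ‖a‖ ^ 2 := Real.sq_sqrt (by linarith)
  set t : ℝ := 1 + s with ht
  have hte : ‖((t : ℝ) : ℂ)‖ = t := by
    rw [Complex.norm_real, Real.norm_eq_abs, abs_of_pos (by linarith)]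
  have hE : ‖a‖ ^ 2 - ‖((t : ℝ) : ℂ)‖ ^ 2 ≠ 0 := by
    rw [hte, ht]
    nlinarith
  refine ⟨((t : ℝ) : ℂ), hE, ?_⟩
  have hEc : ((‖a‖ ^ 2 - ‖((t : ℝ) : ℂ)‖ ^ 2 : ℝ) : ℂ) ≠ 0 := by exact_mod_cast hE
  have h1 : ((‖a‖ ^ 2 - ‖((t : ℝ) : ℂ)‖ ^ 2 : ℝ) : ℂ) = -2 * s * t := by
    rw [hte]
    have : ‖a‖ ^ 2 - t ^ 2 = -2 * s * t := by rw [ht]; nlinarith
    rw [this]; push_cast; ring
  have htc : ((t : ℝ) : ℂ) ≠ 0 := by
    exact_mod_cast (by linarith : t ≠ 0)
  have hsc : ((s : ℝ) : ℂ) ≠ 0 := by exact_mod_cast hs0.ne'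
  have h2 : tau ((t : ℝ) : ℂ) a 0 = ((s : ℝ) : ℂ)⁻¹ := by
    rw [tau, h1, inner_zero_right, Complex.conj_ofReal]
    field_simp
    ring
  have h3 : 1 - ((s : ℝ) : ℂ)⁻¹ * ((t : ℝ) : ℂ) = -((s : ℝ) : ℂ)⁻¹ := by
    rw [ht]; push_cast; field_simp; ring
  rw [refl, h2, h3, zero_sub, smul_neg, smul_smul]
  have h4 : (-((s : ℝ) : ℂ)⁻¹)⁻¹ * ((s : ℝ) : ℂ)⁻¹ = -1 := by
    field_simp
  rw [h4, neg_one_smul, neg_neg]

lemma refl_isBigO {a : EuclideanSpace ℂ (Fin n)} {e : ℂ} (hE : ‖a‖ ^ 2 - ‖e‖ ^ 2 ≠ 0)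
    (hr0 : refl e a 0 = a) {F : Type*} [SeminormedAddCommGroup F]
    {u : EuclideanSpace ℂ (Fin n) → F} {k : ℕ}
    (hu : u =O[𝓝 a] fun z => ‖z - a‖ ^ (k + 1)) :
    (fun z => u (refl e a z)) =O[𝓝 0] fun z : EuclideanSpace ℂ (Fin n) => ‖z‖ ^ (k + 1) := by
  have h0b : (0 : EuclideanSpace ℂ (Fin n)) ∈ ball (0 : EuclideanSpace ℂ (Fin n)) 1 :=
    mem_ball_self one_pos
  have hda : DifferentiableAt ℂ (refl e a) 0 :=
    (refl_diff hE).differentiableAt (isOpen_ball.mem_nhds h0b)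
  have htend : Filter.Tendsto (refl e a) (𝓝 0) (𝓝 a) := by
    have := hda.continuousAt.tendsto
    rwa [hr0] at this
  have h1 := hu.comp_tendsto htend
  have h2 : (fun z => refl e a z - a) =O[𝓝 0] fun z : EuclideanSpace ℂ (Fin n) => z := by
    have := hda.isBigO_sub
    rw [hr0] at this
    simpa using this
  refine Asymptotics.IsBigO.trans h1 ?_
  exact h2.norm_norm.pow (k + 1)

/-- Contact with an affine hyperplane at an interior point. -/
theorem contact_interior {k : ℕ} (hJ : JetDet n N k)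
    {f : EuclideanSpace ℂ (Fin n) → EuclideanSpace ℂ (Fin N)} (hf : IsProperHol f)
    (hfr : IsRational f) {a : EuclideanSpace ℂ (Fin n)} (ha : ‖a‖ < 1)
    (v : EuclideanSpace ℂ (Fin N)) (c : ℂ)
    (hv : (fun z => inner ℂ v (f z) - c) =O[𝓝 a] fun z => ‖z - a‖ ^ (k + 1)) :
    ∀ z ∈ ball (0 : EuclideanSpace ℂ (Fin n)) 1, inner ℂ v (f z) = c := by
  obtain ⟨e, hE, hr0⟩ := exists_refl ha
  have h := contact_affine hJ (proper_comp_refl hE hf) (rat_comp_refl hE hfr) v c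
    (refl_isBigO hE hr0 hv)
  intro z hz
  have hz1 : ‖z‖ < 1 := by simpa using hz
  have h5 := h (refl e a z) (by simpa using refl_lt hE hz1)
  simp only [refl_refl hE hz1] at h5
  exact h5

/-- The base point does not matter. -/
theorem basepoint {k : ℕ} (hJ : JetDet n N k)
    {f g : EuclideanSpace ℂ (Fin n) → EuclideanSpace ℂ (Fin N)} (hf : IsProperHol f)
    (hfr : IsRational f) (hg : IsProperHol g) (hgr : IsRational g)
    {a : EuclideanSpace ℂ (Fin n)} (ha : ‖a‖ < 1)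
    (hjet : (fun z => g z - f z) =O[𝓝 a] fun z => ‖z - a‖ ^ (k + 1)) :
    ∀ z ∈ ball (0 : EuclideanSpace ℂ (Fin n)) 1, g z = f z := by
  obtain ⟨e, hE, hr0⟩ := exists_refl ha
  have h := hJ _ _ (proper_comp_refl hE hf) (rat_comp_refl hE hfr) (proper_comp_refl hE hg)
    (rat_comp_refl hE hgr) (refl_isBigO hE hr0 hjet)
  intro z hz
  have hz1 : ‖z‖ < 1 := by simpa using hz
  have h5 := h (refl e a z) (by simpa using refl_lt hE hz1)
  simp only [refl_refl hE hz1] at h5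
  exact h5

/-- If no linear combination of the components of a proper rational map to the ball of
dimension `2N` vanishes to an order larger than `k`, then `k(n,N) ≤ k`. -/
theorem jetDet_of_contact {k : ℕ}
    (hC : ∀ h : EuclideanSpace ℂ (Fin n) → EuclideanSpace ℂ (Fin (N + N)), IsProperHol h →
      IsRational h → ∀ v : EuclideanSpace ℂ (Fin (N + N)),
      (fun z => inner ℂ v (h z)) =O[𝓝 0]
        (fun z : EuclideanSpace ℂ (Fin n) => ‖z‖ ^ (k + 1)) →
      ∀ z ∈ ball (0 : EuclideanSpace ℂ (Fin n)) 1, inner ℂ v (h z) = 0) :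
    JetDet n N k := by
  intro f g hf hfr hg hgr hjet
  set r : ℂ := ((Real.sqrt 2 : ℝ) : ℂ)⁻¹ with hr
  have hs2 : (0:ℝ) < Real.sqrt 2 := Real.sqrt_pos.mpr two_pos
  have hr0 : r ≠ 0 := by
    rw [hr]; exact inv_ne_zero (by exact_mod_cast hs2.ne')
  have hrn : ‖r‖ ^ 2 = 1 / 2 := by
    rw [hr, norm_inv, Complex.norm_real, Real.norm_eq_abs, inv_pow, sq_abs,
      Real.sq_sqrt (by norm_num)]
    norm_num
  set h : EuclideanSpace ℂ (Fin n) → EuclideanSpace ℂ (Fin (N + N)) := fun z =>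
    WithLp.toLp 2 (Fin.append (fun j => r * f z j) (fun j => r * g z j)) with hh
  have hl : ∀ z j, h z (Fin.castAdd N j) = r * f z j := by
    intro z j
    show Fin.append (fun j => r * f z j) (fun j => r * g z j) (Fin.castAdd N j) = _
    rw [Fin.append_left]
  have hrr : ∀ z j, h z (Fin.natAdd N j) = r * g z j := by
    intro z j
    show Fin.append (fun j => r * f z j) (fun j => r * g z j) (Fin.natAdd N j) = _
    rw [Fin.append_right]
  have hnorm : ∀ z, ‖h z‖ ^ 2 = (‖f z‖ ^ 2 + ‖g z‖ ^ 2) / 2 := by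
    intro z
    rw [EuclideanSpace.norm_sq_eq, Fin.sum_univ_add]
    simp only [hl, hrr, norm_mul, mul_pow, hrn]
    rw [← Finset.mul_sum, ← Finset.mul_sum, ← EuclideanSpace.norm_sq_eq,
      ← EuclideanSpace.norm_sq_eq]
    ring
  have hd : DifferentiableOn ℂ h (ball 0 1) := by
    rw [differentiableOn_euclidean]
    intro j
    refine Fin.addCases (fun j => ?_) (fun j => ?_) j
    · simp only [hl]
      exact ((differentiableOn_euclidean.mp hf.1) j).const_mul r
    · simp only [hrr]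
      exact ((differentiableOn_euclidean.mp hg.1) j).const_mul r
  have hfb : ∀ z ∈ ball (0 : EuclideanSpace ℂ (Fin n)) 1, ‖f z‖ < 1 := fun z hz => by
    simpa using hf.2.1 z hz
  have hgb : ∀ z ∈ ball (0 : EuclideanSpace ℂ (Fin n)) 1, ‖g z‖ < 1 := fun z hz => by
    simpa using hg.2.1 z hz
  have hp : IsProperHol h := by
    refine ⟨hd, fun z hz => ?_, fun K hK hc => ?_⟩
    · rw [mem_ball_zero_iff]
      have h1 := pow_lt_one₀ (norm_nonneg _) (hfb z hz) two_ne_zero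
      have h2 := pow_lt_one₀ (norm_nonneg _) (hgb z hz) two_ne_zero
      have h3 := hnorm z
      by_contra hcon
      push Not at hcon
      have := one_le_pow₀ hcon (n := 2)
      linarith
    · rcases Set.eq_empty_or_nonempty K with he | hne
      · rw [he, Set.preimage_empty, Set.inter_empty]; exact isCompact_empty
      obtain ⟨x₀, hx₀, hmax⟩ := hc.exists_isMaxOn hne continuous_norm.continuousOn
      have hρ : ‖x₀‖ < 1 := by simpa using hK hx₀
      have hbound : ∀ x ∈ K, ‖x‖ ≤ ‖x₀‖ := fun x hx => hmax hx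
      have hC1 := hf.2.2 (closedBall 0 ‖x₀‖) (closedBall_subset_ball hρ)
        (isCompact_closedBall _ _)
      have hC2 := hg.2.2 (closedBall 0 ‖x₀‖) (closedBall_subset_ball hρ)
        (isCompact_closedBall _ _)
      have hCc := hC1.union hC2
      set C := (ball (0 : EuclideanSpace ℂ (Fin n)) 1 ∩ f ⁻¹' closedBall 0 ‖x₀‖) ∪
        (ball (0 : EuclideanSpace ℂ (Fin n)) 1 ∩ g ⁻¹' closedBall 0 ‖x₀‖) with hCd
      have hCb : C ⊆ ball 0 1 := by
        rintro z (⟨h1, _⟩ | ⟨h1, _⟩) <;> exact h1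
      have heq : ball (0 : EuclideanSpace ℂ (Fin n)) 1 ∩ h ⁻¹' K = C ∩ h ⁻¹' K := by
        ext z
        constructor
        · rintro ⟨h1, h2⟩
          refine ⟨?_, h2⟩
          have h3 := hbound _ h2
          have h4 : ‖h z‖ ^ 2 ≤ ‖x₀‖ ^ 2 := pow_le_pow_left₀ (norm_nonneg _) h3 2
          rw [hnorm] at h4
          by_contra hcon
          have h5 : ‖x₀‖ < ‖f z‖ := by
            by_contra h6
            push Not at h6
            exact hcon (Or.inl ⟨h1, by simpa using h6⟩)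
          have h6 : ‖x₀‖ < ‖g z‖ := by
            by_contra h7
            push Not at h7
            exact hcon (Or.inr ⟨h1, by simpa using h7⟩)
          have h7 := pow_lt_pow_left₀ h5 (norm_nonneg _) two_ne_zero
          have h8 := pow_lt_pow_left₀ h6 (norm_nonneg _) two_ne_zero
          linarith
        · rintro ⟨h1, h2⟩
          exact ⟨hCb h1, h2⟩
      rw [heq]
      exact hCc.of_isClosed_subset
        ((hd.continuousOn.mono hCb).preimage_isClosed_of_isClosed hCc.isClosed hc.isClosed)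
        Set.inter_subset_left
  have hrat : IsRational h := by
    intro j
    refine Fin.addCases (fun j => ?_) (fun j => ?_) j
    · have := Rat1.smul r (hfr j)
      refine Rat1.congr this fun z _ => ?_
      exact hl z j
    · have := Rat1.smul r (hgr j)
      refine Rat1.congr this fun z _ => ?_
      exact hrr z j
  intro z hz
  ext j
  set v : EuclideanSpace ℂ (Fin (N + N)) := EuclideanSpace.single (Fin.natAdd N j) (1:ℂ) -
    EuclideanSpace.single (Fin.castAdd N j) (1:ℂ) with hv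
  have hvz : ∀ z, inner ℂ v (h z) = r * (g z j - f z j) := by
    intro z
    rw [hv, inner_sub_left, EuclideanSpace.inner_single_left, EuclideanSpace.inner_single_left,
      map_one, one_mul, one_mul, hl, hrr]
    ring
  have hO : (fun z => inner ℂ v (h z)) =O[𝓝 0]
      (fun z : EuclideanSpace ℂ (Fin n) => ‖z‖ ^ (k + 1)) := by
    simp only [hvz]
    apply Asymptotics.IsBigO.const_mul_left
    refine Asymptotics.IsBigO.trans (g := fun z => g z - f z) ?_ hjet
    apply Asymptotics.IsBigO.of_bound 1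
    filter_upwards with z
    rw [one_mul]
    exact PiLp.norm_apply_le (g z - f z) j
  have h1 := hC h hp hrat v hO z hz
  rw [hvz] at h1
  rcases mul_eq_zero.mp h1 with h2 | h2
  · exact absurd h2 hr0
  · exact sub_eq_zero.mp h2

end Pool.Agent.T6.H21.JD
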