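import Pool.Agent.T6.H21.JD.Defs

/-!
# Jet determination, lower bounds from monomial maps
-/

open Metric Topology

namespace Pool.Agent.T6.H21.JD

variable {n N : ℕ} {ι : Type}

/-- The map whose component `e i` is `a i` times the monomial of exponent `α i`. -/
noncomputable def monMap (e : ι ↪ Fin N) (a : ι → ℂ) (α : ι → Fin n → ℕ)
    (z : EuclideanSpace ℂ (Fin n)) : EuclideanSpace ℂ (Fin N) :=
  WithLp.toLp 2 (Function.extend e (fun i => a i * ∏ l, z l ^ α i l) 0)

lemma monMap_apply (e : ι ↪ Fin N) (a : ι → ℂ) (α : ι → Fin n → ℕ)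
    (z : EuclideanSpace ℂ (Fin n)) (i : ι) :
    monMap e a α z (e i) = a i * ∏ l, z l ^ α i l := by
  show Function.extend e (fun i => a i * ∏ l, z l ^ α i l) 0 (e i) = _
  exact e.injective.extend_apply _ _ _

lemma monMap_apply' (e : ι ↪ Fin N) (a : ι → ℂ) (α : ι → Fin n → ℕ)
    (z : EuclideanSpace ℂ (Fin n)) (j : Fin N) (hj : ¬ ∃ i, e i = j) :
    monMap e a α z j = 0 := by
  show Function.extend e (fun i => a i * ∏ l, z l ^ α i l) 0 j = _
  rw [Function.extend_apply' _ _ _ hj]; rfl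

lemma monMap_norm [Fintype ι] (e : ι ↪ Fin N) (a : ι → ℂ) (α : ι → Fin n → ℕ)
    (z : EuclideanSpace ℂ (Fin n)) :
    ‖monMap e a α z‖ ^ 2 = ∑ i, ‖a i‖ ^ 2 * ∏ l, (‖z l‖ ^ 2) ^ α i l := by
  rw [EuclideanSpace.norm_sq_eq]
  symm
  apply Fintype.sum_of_injective e e.injective
  · intro j hj
    rw [monMap_apply' e a α z j (fun ⟨i, hi⟩ => hj ⟨i, hi⟩)]
    simp
  · intro i
    rw [monMap_apply, norm_mul, mul_pow, norm_prod, ← Finset.prod_pow]
    congr 1
    apply Finset.prod_congr rfl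
    intro l _
    rw [norm_pow, ← pow_mul, ← pow_mul, mul_comm]

lemma monMap_diff (e : ι ↪ Fin N) (a : ι → ℂ) (α : ι → Fin n → ℕ) :
    Differentiable ℂ (monMap e a α) := by
  rw [differentiable_euclidean]
  intro j
  by_cases hj : ∃ i, e i = j
  · obtain ⟨i, rfl⟩ := hj
    have : (fun z => monMap e a α z (e i)) = fun z => a i * ∏ l, z l ^ α i l := by
      funext z; exact monMap_apply e a α z i
    rw [this]
    fun_prop
  · have : (fun z => monMap e a α z j) = fun _ => 0 := by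
      funext z; exact monMap_apply' e a α z j hj
    rw [this]
    fun_prop

lemma monMap_sub (e : ι ↪ Fin N) (a b : ι → ℂ) (α : ι → Fin n → ℕ)
    (z : EuclideanSpace ℂ (Fin n)) :
    monMap e b α z - monMap e a α z = monMap e (fun i => b i - a i) α z := by
  ext j
  rw [PiLp.sub_apply]
  by_cases hj : ∃ i, e i = j
  · obtain ⟨i, rfl⟩ := hj
    rw [monMap_apply, monMap_apply, monMap_apply]; ring
  · rw [monMap_apply' e _ α z j hj, monMap_apply' e _ α z j hj, monMap_apply' e _ α z j hj,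
      sub_zero]

lemma proper_of {f : EuclideanSpace ℂ (Fin n) → EuclideanSpace ℂ (Fin N)}
    (hf : Differentiable ℂ f) (hb : ∀ z, ‖z‖ < 1 → ‖f z‖ < 1) (hs : ∀ z, ‖z‖ = 1 → ‖f z‖ = 1) :
    IsProperHol f := by
  refine ⟨hf.differentiableOn, fun z hz => ?_, fun K hK hc => ?_⟩
  · rw [mem_ball_zero_iff] at hz ⊢
    exact hb z hz
  · have h1 : ball (0 : EuclideanSpace ℂ (Fin n)) 1 ∩ f ⁻¹' K
        = closedBall (0 : EuclideanSpace ℂ (Fin n)) 1 ∩ f ⁻¹' K := by
      ext z
      constructor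
      · rintro ⟨h1, h2⟩
        exact ⟨ball_subset_closedBall h1, h2⟩
      · rintro ⟨h1, h2⟩
        refine ⟨?_, h2⟩
        rw [mem_closedBall_zero_iff] at h1
        rw [mem_ball_zero_iff]
        rcases h1.lt_or_eq with h | h
        · exact h
        · have h3 := hK h2
          rw [mem_ball_zero_iff, hs z h] at h3
          exact absurd h3 (lt_irrefl _)
    rw [h1]
    exact (isCompact_closedBall _ _).inter_right (hc.isClosed.preimage hf.continuous)

/-- The value of a monomial family at a point of the open simplex. -/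
lemma simplex_le [Fintype ι] (c : ι → ℝ) (hc : ∀ i, 0 ≤ c i) (α : ι → Fin n → ℕ)
    (hα : ∀ i, 1 ≤ ∑ l, α i l)
    (hp : ∀ x : Fin n → ℝ, (∀ l, 0 ≤ x l) → ∑ l, x l = 1 → ∑ i, c i * ∏ l, x l ^ α i l = 1)
    (x : Fin n → ℝ) (hx : ∀ l, 0 ≤ x l) (hs : ∑ l, x l < 1) :
    ∑ i, c i * ∏ l, x l ^ α i l < 1 := by
  set s := ∑ l, x l with hsd
  have hs0 : 0 ≤ s := Finset.sum_nonneg fun l _ => hx l
  rcases hs0.eq_or_lt with h0 | hpos
  · have hx0 : ∀ l, x l = 0 := by
      intro l
      exact (Finset.sum_eq_zero_iff_of_nonneg (fun l _ => hx l)).mp h0.symm l (Finset.mem_univ l)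
    have : ∑ i, c i * ∏ l, x l ^ α i l = 0 := by
      apply Finset.sum_eq_zero
      intro i _
      have h1 : ∃ l, α i l ≠ 0 := by
        by_contra hcon
        push Not at hcon
        have := hα i
        rw [Finset.sum_eq_zero (fun l _ => hcon l)] at this
        omega
      obtain ⟨l, hl⟩ := h1
      rw [Finset.prod_eq_zero (Finset.mem_univ l) (by rw [hx0 l, zero_pow hl]), mul_zero]
    rw [this]; exact one_pos
  · have h2 := hp (fun l => x l / s) (fun l => div_nonneg (hx l) hs0)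
      (by rw [← Finset.sum_div]; exact div_self hpos.ne')
    calc ∑ i, c i * ∏ l, x l ^ α i l ≤ ∑ i, s * (c i * ∏ l, (x l / s) ^ α i l) := by
          apply Finset.sum_le_sum
          intro i _
          have h3 : ∏ l, x l ^ α i l = s ^ (∑ l, α i l) * ∏ l, (x l / s) ^ α i l := by
            rw [← Finset.prod_pow_eq_pow_sum, ← Finset.prod_mul_distrib]
            apply Finset.prod_congr rfl
            intro l _
            rw [← mul_pow, mul_div_cancel₀ _ hpos.ne']
          rw [h3]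
          have h4 : s ^ (∑ l, α i l) ≤ s := by
            calc s ^ (∑ l, α i l) ≤ s ^ 1 := pow_le_pow_of_le_one hs0 hs.le (hα i)
              _ = s := pow_one s
          have h5 : 0 ≤ ∏ l, (x l / s) ^ α i l :=
            Finset.prod_nonneg fun l _ => pow_nonneg (div_nonneg (hx l) hs0) _
          have h6 : 0 ≤ c i * ∏ l, (x l / s) ^ α i l := mul_nonneg (hc i) h5
          calc c i * (s ^ (∑ l, α i l) * ∏ l, (x l / s) ^ α i l)
              = s ^ (∑ l, α i l) * (c i * ∏ l, (x l / s) ^ α i l) := by ring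
            _ ≤ s * (c i * ∏ l, (x l / s) ^ α i l) := mul_le_mul_of_nonneg_right h4 h6
      _ = s := by rw [← Finset.mul_sum, h2, mul_one]
      _ < 1 := hs

lemma monMap_proper [Fintype ι] (e : ι ↪ Fin N) (a : ι → ℂ) (α : ι → Fin n → ℕ)
    (hα : ∀ i, 1 ≤ ∑ l, α i l)
    (hp : ∀ x : Fin n → ℝ, (∀ l, 0 ≤ x l) → ∑ l, x l = 1 →
      ∑ i, ‖a i‖ ^ 2 * ∏ l, x l ^ α i l = 1) :
    IsProperHol (monMap e a α) := by
  apply proper_of (monMap_diff e a α)
  · intro z hz
    have h1 : ∑ l, ‖z l‖ ^ 2 < 1 := by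
      rw [← EuclideanSpace.norm_sq_eq]
      exact pow_lt_one₀ (norm_nonneg _) hz two_ne_zero
    have h2 := simplex_le (fun i => ‖a i‖ ^ 2) (fun i => by positivity) α hα hp
      (fun l => ‖z l‖ ^ 2) (fun l => by positivity) h1
    rw [← monMap_norm e a α z] at h2
    by_contra hcon
    push Not at hcon
    have := one_le_pow₀ hcon (n := 2)
    linarith
  · intro z hz
    have h1 : ∑ l, ‖z l‖ ^ 2 = 1 := by
      rw [← EuclideanSpace.norm_sq_eq, hz]; norm_num
    have h2 := hp (fun l => ‖z l‖ ^ 2) (fun l => by positivity) h1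
    rw [← monMap_norm e a α z] at h2
    exact (pow_eq_one_iff_of_nonneg (norm_nonneg _) two_ne_zero).mp h2

lemma monMap_deg (e : ι ↪ Fin N) (a : ι → ℂ) (α : ι → Fin n → ℕ) {d : ℕ}
    (hd : ∀ i, ∑ l, α i l ≤ d) : DegLE d (monMap e a α) := by
  classical
  refine ⟨1, Function.extend e (fun i => MvPolynomial.C (a i) *
    ∏ l, MvPolynomial.X l ^ α i l) 0, one_ne_zero, by simp, ?_, ?_⟩
  · intro j
    by_cases hj : ∃ i, e i = j
    · obtain ⟨i, rfl⟩ := hj
      rw [e.injective.extend_apply]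
      refine (MvPolynomial.totalDegree_mul _ _).trans ?_
      rw [MvPolynomial.totalDegree_C, zero_add]
      refine (MvPolynomial.totalDegree_finsetProd _ _).trans ?_
      refine le_trans (Finset.sum_le_sum fun l _ => ?_) (hd i)
      rw [MvPolynomial.totalDegree_X_pow]
    · rw [Function.extend_apply' _ _ _ hj]; simp
  · intro z _ j
    rw [map_one, one_mul]
    by_cases hj : ∃ i, e i = j
    · obtain ⟨i, rfl⟩ := hj
      rw [e.injective.extend_apply, monMap_apply]
      simp [map_prod]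
    · rw [Function.extend_apply' _ _ _ hj, monMap_apply' e a α z j hj]; simp

lemma DegLE.isRational {f : EuclideanSpace ℂ (Fin n) → EuclideanSpace ℂ (Fin N)} {d : ℕ}
    (h : DegLE d f) : IsRational f := by
  obtain ⟨Q, P, hQ, _, _, h1⟩ := h
  exact fun j => ⟨P j, Q, hQ, fun z hz => h1 z hz j⟩

/-- Two different monomial maps with the same jet. -/
theorem exists_pair [Fintype ι] (e : ι ↪ Fin N) (c : ι → ℝ) (hc : ∀ i, 0 ≤ c i) (α : ι → Fin n → ℕ)
    (hα : ∀ i, 1 ≤ ∑ l, α i l)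
    (hp : ∀ x : Fin n → ℝ, (∀ l, 0 ≤ x l) → ∑ l, x l = 1 → ∑ i, c i * ∏ l, x l ^ α i l = 1)
    {d : ℕ} (hd : ∀ i, ∑ l, α i l ≤ d) (i₀ : ι) (hi₀ : 0 < c i₀) {k : ℕ}
    (hk : k < ∑ l, α i₀ l) :
    ∃ f g : EuclideanSpace ℂ (Fin n) → EuclideanSpace ℂ (Fin N),
      IsProperHol f ∧ DegLE d f ∧ IsProperHol g ∧ DegLE d g ∧ SameJet k f g ∧
      ∃ z ∈ ball (0 : EuclideanSpace ℂ (Fin n)) 1, g z ≠ f z := by
  classical
  set a : ι → ℂ := fun i => ((Real.sqrt (c i) : ℝ) : ℂ) with ha
  set b : ι → ℂ := Function.update a i₀ (-a i₀) with hb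
  have hna : ∀ i, ‖a i‖ ^ 2 = c i := by
    intro i
    rw [ha]
    simp only [Complex.norm_real, Real.norm_eq_abs, sq_abs]
    exact Real.sq_sqrt (hc i)
  have hnb : ∀ i, ‖b i‖ ^ 2 = c i := by
    intro i
    by_cases h : i = i₀
    · rw [h, hb, Function.update_self, norm_neg, hna]
    · rw [hb, Function.update_of_ne h, hna]
  have hdiff : ∀ z, ‖monMap e b α z - monMap e a α z‖ ^ 2
      = 4 * c i₀ * ∏ l, (‖z l‖ ^ 2) ^ α i₀ l := by
    intro z
    rw [monMap_sub, monMap_norm]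
    rw [Finset.sum_eq_single i₀]
    · rw [hb, Function.update_self]
      have : -a i₀ - a i₀ = -(2 * a i₀) := by ring
      rw [this, norm_neg, norm_mul, mul_pow, hna]
      norm_num
    · intro i _ hi
      rw [hb, Function.update_of_ne hi]; simp
    · intro h; exact absurd (Finset.mem_univ _) h
  refine ⟨monMap e a α, monMap e b α, ?_, monMap_deg e a α hd, ?_, monMap_deg e b α hd, ?_, ?_⟩
  · exact monMap_proper e a α hα (by simpa only [hna] using hp)
  · exact monMap_proper e b α hα (by simpa only [hnb] using hp)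
  · apply Asymptotics.IsBigO.of_bound (2 * Real.sqrt (c i₀))
    have hball : ∀ᶠ z : EuclideanSpace ℂ (Fin n) in 𝓝 0, z ∈ ball (0 : EuclideanSpace ℂ (Fin n)) 1 :=
      isOpen_ball.mem_nhds (by simp)
    filter_upwards [hball] with z hz
    have hz1 : ‖z‖ < 1 := by simpa using hz
    rw [norm_pow, norm_norm]
    apply le_of_sq_le_sq _ (by positivity)
    rw [hdiff z]
    have h1 : ∏ l, (‖z l‖ ^ 2) ^ α i₀ l ≤ (‖z‖ ^ 2) ^ (∑ l, α i₀ l) := by
      rw [← Finset.prod_pow_eq_pow_sum]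
      apply Finset.prod_le_prod
      · intro l _; positivity
      · intro l _
        apply pow_le_pow_left₀ (by positivity)
        exact pow_le_pow_left₀ (norm_nonneg _) (PiLp.norm_apply_le z l) 2
    have h2 : (‖z‖ ^ 2) ^ (∑ l, α i₀ l) ≤ (‖z‖ ^ 2) ^ (k + 1) := by
      apply pow_le_pow_of_le_one (by positivity) (pow_le_one₀ (norm_nonneg _) hz1.le) (by omega)
    have h3 : (2 * Real.sqrt (c i₀) * ‖z‖ ^ (k + 1)) ^ 2 = 4 * c i₀ * (‖z‖ ^ 2) ^ (k + 1) := by
      rw [mul_pow, mul_pow, Real.sq_sqrt (hc i₀)]; ring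
    rw [h3]
    exact mul_le_mul_of_nonneg_left (h1.trans h2) (by linarith)
  · refine ⟨WithLp.toLp 2 (fun _ => ((1 / (n + 1 : ℝ) : ℝ) : ℂ)), ?_, ?_⟩
    · rw [mem_ball_zero_iff]
      by_contra hcon
      push Not at hcon
      have h1 := one_le_pow₀ hcon (n := 2)
      rw [EuclideanSpace.norm_sq_eq] at h1
      simp only [Complex.norm_real, Real.norm_eq_abs, sq_abs, Finset.sum_const, Finset.card_univ,
        Fintype.card_fin, nsmul_eq_mul] at h1
      have h2 : (0:ℝ) ≤ n := Nat.cast_nonneg n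
      have h3 : (n:ℝ) * (1 / (n + 1)) ^ 2 < 1 := by
        rw [div_pow, one_pow, mul_one_div, div_lt_one (by positivity)]
        nlinarith
      linarith
    · intro heq
      have h1 := hdiff (WithLp.toLp 2 (fun _ => ((1 / (n + 1 : ℝ) : ℝ) : ℂ)))
      rw [heq, sub_self, norm_zero] at h1
      have h2 : 0 < 4 * c i₀ * ∏ l : Fin n,
          (‖(WithLp.toLp 2 (fun _ => ((1 / (n + 1 : ℝ) : ℝ) : ℂ)) :
            EuclideanSpace ℂ (Fin n)) l‖ ^ 2) ^ α i₀ l := by
        apply mul_pos (by linarith)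
        apply Finset.prod_pos
        intro l _
        apply pow_pos
        apply pow_pos
        rw [norm_pos_iff]
        show ((1 / (n + 1 : ℝ) : ℝ) : ℂ) ≠ 0
        exact_mod_cast (by positivity : (1 / (n + 1 : ℝ)) ≠ 0)
      rw [← h1] at h2
      norm_num at h2

end Pool.Agent.T6.H21.JD
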