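import Pool.Agent.T6.H21.JD.Contact

/-!
# Jet determination: reflections of the ball and composition of rational functions
-/

open Metric Topology

namespace Pool.Agent.T6.H21.JD

section refl

variable {m : ℕ}

/-- The linear part of the reflection with vector `(e, v)`. -/
noncomputable def tau (e : ℂ) (v : EuclideanSpace ℂ (Fin m)) (w : EuclideanSpace ℂ (Fin m)) : ℂ :=
  2 * (inner ℂ v w - (starRingEnd ℂ) e) / ((‖v‖ ^ 2 - ‖e‖ ^ 2 : ℝ) : ℂ)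

/-- The reflection with vector `(e, v)`, as a map of the ball. -/
noncomputable def refl (e : ℂ) (v : EuclideanSpace ℂ (Fin m)) (w : EuclideanSpace ℂ (Fin m)) :
    EuclideanSpace ℂ (Fin m) :=
  (1 - tau e v w * e)⁻¹ • (w - tau e v w • v)

lemma form_eq {e : ℂ} {v : EuclideanSpace ℂ (Fin m)} (hE : ‖v‖ ^ 2 - ‖e‖ ^ 2 ≠ 0)
    (w : EuclideanSpace ℂ (Fin m)) :
    ‖w - tau e v w • v‖ ^ 2 - ‖1 - tau e v w * e‖ ^ 2 = ‖w‖ ^ 2 - 1 := by
  set t := tau e v w with ht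
  set E : ℝ := ‖v‖ ^ 2 - ‖e‖ ^ 2 with hEd
  have h1 : ‖w - t • v‖ ^ 2 = ‖w‖ ^ 2 - 2 * (inner ℂ w (t • v)).re + ‖t • v‖ ^ 2 := by
    rw [norm_sub_sq (𝕜 := ℂ)]; rfl
  have h2 : ‖t • v‖ ^ 2 = ‖t‖ ^ 2 * ‖v‖ ^ 2 := by rw [norm_smul, mul_pow]
  have h3 : ‖1 - t * e‖ ^ 2 = 1 - 2 * (t * e).re + ‖t‖ ^ 2 * ‖e‖ ^ 2 := by
    rw [← Complex.normSq_eq_norm_sq, ← Complex.normSq_eq_norm_sq, ← Complex.normSq_eq_norm_sq,
      Complex.normSq_apply, Complex.normSq_apply, Complex.normSq_apply]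
    simp only [Complex.sub_re, Complex.one_re, Complex.mul_re, Complex.sub_im, Complex.one_im,
      Complex.mul_im]
    ring
  have h4 : inner ℂ w (t • v) = t * inner ℂ w v := inner_smul_right _ _ _
  have h5 : inner ℂ v w - (starRingEnd ℂ) e = t * (E : ℂ) / 2 := by
    have hEc : ((E : ℝ) : ℂ) ≠ 0 := by exact_mod_cast hE
    rw [ht, tau, ← hEd]; field_simp
  have h6 : inner ℂ w v - e = (starRingEnd ℂ) t * (E : ℂ) / 2 := by
    have := congrArg (starRingEnd ℂ) h5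
    rw [map_sub, Complex.conj_conj, inner_conj_symm] at this
    rw [this, map_div₀, map_mul, Complex.conj_ofReal, map_ofNat]
  have h7 : t * inner ℂ w v - t * e = ((‖t‖ ^ 2 * E / 2 : ℝ) : ℂ) := by
    have : t * inner ℂ w v - t * e = t * (starRingEnd ℂ) t * (E : ℂ) / 2 := by
      rw [← mul_sub, h6]; ring
    rw [this, Complex.mul_conj, Complex.normSq_eq_norm_sq]
    push_cast; ring
  have h8 : (t * inner ℂ w v).re - (t * e).re = ‖t‖ ^ 2 * E / 2 := by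
    have := congrArg Complex.re h7
    rw [Complex.sub_re, Complex.ofReal_re] at this
    exact this
  rw [h1, h2, h3, h4]
  have h9 : ‖t‖ ^ 2 * ‖v‖ ^ 2 - ‖t‖ ^ 2 * ‖e‖ ^ 2 = ‖t‖ ^ 2 * E := by rw [hEd]; ring
  linarith

lemma den_ne {e : ℂ} {v : EuclideanSpace ℂ (Fin m)} (hE : ‖v‖ ^ 2 - ‖e‖ ^ 2 ≠ 0)
    {w : EuclideanSpace ℂ (Fin m)} (hw : ‖w‖ < 1) : 1 - tau e v w * e ≠ 0 := by
  intro h
  have h1 := form_eq hE w
  rw [h, norm_zero] at h1
  have h2 : ‖w‖ ^ 2 < 1 := pow_lt_one₀ (norm_nonneg _) hw two_ne_zero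
  have h3 := sq_nonneg ‖w - tau e v w • v‖
  nlinarith

lemma refl_lt {e : ℂ} {v : EuclideanSpace ℂ (Fin m)} (hE : ‖v‖ ^ 2 - ‖e‖ ^ 2 ≠ 0)
    {w : EuclideanSpace ℂ (Fin m)} (hw : ‖w‖ < 1) : ‖refl e v w‖ < 1 := by
  have h1 := form_eq hE w
  have h2 : ‖w‖ ^ 2 < 1 := pow_lt_one₀ (norm_nonneg _) hw two_ne_zero
  have h3 : 0 < ‖1 - tau e v w * e‖ := norm_pos_iff.mpr (den_ne hE hw)
  rw [refl, norm_smul, norm_inv, inv_mul_lt_iff₀ h3, mul_one]
  apply lt_of_pow_lt_pow_left₀ 2 h3.le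
  linarith

lemma tau_refl {e : ℂ} {v : EuclideanSpace ℂ (Fin m)} (hE : ‖v‖ ^ 2 - ‖e‖ ^ 2 ≠ 0)
    {w : EuclideanSpace ℂ (Fin m)} (hw : ‖w‖ < 1) :
    tau e v (refl e v w) = - tau e v w * (1 - tau e v w * e)⁻¹ := by
  have hD := den_ne hE hw
  set t := tau e v w with ht
  set D : ℂ := 1 - t * e with hDd
  set E : ℝ := ‖v‖ ^ 2 - ‖e‖ ^ 2 with hEd
  have hEc : ((E : ℝ) : ℂ) ≠ 0 := by exact_mod_cast hE
  have h5 : inner ℂ v w = (starRingEnd ℂ) e + t * (E : ℂ) / 2 := by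
    rw [ht, tau, ← hEd]; field_simp; ring
  have hv : inner ℂ v v = ((‖v‖ ^ 2 : ℝ) : ℂ) := by
    rw [inner_self_eq_norm_sq_to_K]; push_cast; rfl
  have he : (starRingEnd ℂ) e * e = ((‖e‖ ^ 2 : ℝ) : ℂ) := by
    rw [mul_comm, Complex.mul_conj, Complex.normSq_eq_norm_sq]
  have h6 : inner ℂ v (refl e v w) = D⁻¹ * (inner ℂ v w - t * ((‖v‖ ^ 2 : ℝ) : ℂ)) := by
    rw [refl, ← ht, ← hDd, inner_smul_right, inner_sub_right, inner_smul_right, hv]
  have h7 : ((‖v‖ ^ 2 : ℝ) : ℂ) = (E : ℂ) + (starRingEnd ℂ) e * e := by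
    rw [he, hEd]; push_cast; ring
  have h8 : tau e v (refl e v w)
      = 2 * (D⁻¹ * (inner ℂ v w - t * ((‖v‖ ^ 2 : ℝ) : ℂ)) - (starRingEnd ℂ) e) / (E : ℂ) := by
    rw [tau, h6]
  rw [h8, h5, h7]
  field_simp
  rw [hDd]
  ring

lemma refl_refl {e : ℂ} {v : EuclideanSpace ℂ (Fin m)} (hE : ‖v‖ ^ 2 - ‖e‖ ^ 2 ≠ 0)
    {w : EuclideanSpace ℂ (Fin m)} (hw : ‖w‖ < 1) : refl e v (refl e v w) = w := by
  have hD := den_ne hE hw
  have h1 := tau_refl hE hw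
  set t := tau e v w with ht
  set D : ℂ := 1 - t * e with hDd
  have h2 : (1 - tau e v (refl e v w) * e) = D⁻¹ := by
    rw [h1]
    have : (1:ℂ) = D * D⁻¹ := (mul_inv_cancel₀ hD).symm
    have h3 : 1 - -t * D⁻¹ * e = (D + t * e) * D⁻¹ := by
      rw [add_mul, mul_inv_cancel₀ hD]; ring
    rw [h3, hDd]; ring
  have h3 : refl e v w - tau e v (refl e v w) • v = D⁻¹ • w := by
    rw [h1]
    rw [refl, ← ht, ← hDd, smul_sub, smul_smul]
    have : -t * D⁻¹ = -(D⁻¹ * t) := by ring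
    rw [this, neg_smul]; abel
  have h4 : refl e v (refl e v w) = (1 - tau e v (refl e v w) * e)⁻¹ •
    (refl e v w - tau e v (refl e v w) • v) := rfl
  rw [h4, h2, h3, smul_smul, inv_inv, mul_inv_cancel₀ hD, one_smul]

lemma tau_diff (e : ℂ) (v : EuclideanSpace ℂ (Fin m)) :
    Differentiable ℂ (tau e v) := by
  have h1 : Differentiable ℂ (fun w : EuclideanSpace ℂ (Fin m) => inner ℂ v w) :=
    (innerSL ℂ v).differentiable
  have h2 : tau e v = fun w => (2 / ((‖v‖ ^ 2 - ‖e‖ ^ 2 : ℝ) : ℂ)) *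
      (inner ℂ v w - (starRingEnd ℂ) e) := by
    funext w; rw [tau]; ring
  rw [h2]
  exact (h1.sub_const _).const_mul _

lemma refl_diff {e : ℂ} {v : EuclideanSpace ℂ (Fin m)} (hE : ‖v‖ ^ 2 - ‖e‖ ^ 2 ≠ 0) :
    DifferentiableOn ℂ (refl e v) (ball 0 1) := by
  intro w hw
  have hw1 : ‖w‖ < 1 := by simpa using hw
  apply DifferentiableAt.differentiableWithinAt
  have h1 : DifferentiableAt ℂ (fun w => 1 - tau e v w * e) w :=
    (((tau_diff e v) w).mul_const e).const_sub 1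
  have h2 : DifferentiableAt ℂ (fun w => w - tau e v w • v) w :=
    differentiableAt_id.sub (((tau_diff e v) w).smul_const v)
  exact (h1.inv (den_ne hE hw1)).smul h2

lemma refl_preimage {e : ℂ} {v : EuclideanSpace ℂ (Fin m)} (hE : ‖v‖ ^ 2 - ‖e‖ ^ 2 ≠ 0)
    {K : Set (EuclideanSpace ℂ (Fin m))} (hK : K ⊆ ball 0 1) :
    ball (0 : EuclideanSpace ℂ (Fin m)) 1 ∩ refl e v ⁻¹' K = refl e v '' K := by
  ext w
  constructor
  · rintro ⟨h1, h2⟩
    exact ⟨refl e v w, h2, refl_refl hE (by simpa using h1)⟩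
  · rintro ⟨x, hx, rfl⟩
    have hx1 : ‖x‖ < 1 := by simpa using hK hx
    refine ⟨by simpa using refl_lt hE hx1, ?_⟩
    show refl e v (refl e v x) ∈ K
    rw [refl_refl hE hx1]; exact hx

/-- Composition with a reflection of the target ball. -/
lemma proper_refl_comp {n : ℕ} {e : ℂ} {v : EuclideanSpace ℂ (Fin m)}
    (hE : ‖v‖ ^ 2 - ‖e‖ ^ 2 ≠ 0) {f : EuclideanSpace ℂ (Fin n) → EuclideanSpace ℂ (Fin m)}
    (hf : IsProperHol f) : IsProperHol (fun z => refl e v (f z)) := by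
  refine ⟨(refl_diff hE).comp hf.1 (fun z hz => hf.2.1 z hz), fun z hz => ?_, fun K hK hc => ?_⟩
  · have := hf.2.1 z hz
    rw [mem_ball_zero_iff] at this ⊢
    exact refl_lt hE this
  · have h1 : ball (0 : EuclideanSpace ℂ (Fin n)) 1 ∩ (fun z => refl e v (f z)) ⁻¹' K
        = ball (0 : EuclideanSpace ℂ (Fin n)) 1 ∩
          f ⁻¹' (ball (0 : EuclideanSpace ℂ (Fin m)) 1 ∩ refl e v ⁻¹' K) := by
      ext z
      constructor
      · rintro ⟨h1, h2⟩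
        exact ⟨h1, hf.2.1 z h1, h2⟩
      · rintro ⟨h1, _, h2⟩
        exact ⟨h1, h2⟩
    rw [h1, refl_preimage hE hK]
    apply hf.2.2
    · rintro _ ⟨x, hx, rfl⟩
      have hx1 : ‖x‖ < 1 := by simpa using hK hx
      simpa using refl_lt hE hx1
    · exact hc.image_of_continuousOn ((refl_diff hE).continuousOn.mono hK)

/-- Composition with a reflection of the source ball. -/
lemma proper_comp_refl {N : ℕ} {e : ℂ} {v : EuclideanSpace ℂ (Fin m)}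
    (hE : ‖v‖ ^ 2 - ‖e‖ ^ 2 ≠ 0) {f : EuclideanSpace ℂ (Fin m) → EuclideanSpace ℂ (Fin N)}
    (hf : IsProperHol f) : IsProperHol (fun z => f (refl e v z)) := by
  have hmap : Set.MapsTo (refl e v) (ball (0 : EuclideanSpace ℂ (Fin m)) 1) (ball 0 1) := by
    intro z hz
    rw [mem_ball_zero_iff] at hz ⊢
    exact refl_lt hE hz
  refine ⟨hf.1.comp (refl_diff hE) hmap, fun z hz => hf.2.1 _ (hmap hz), fun K hK hc => ?_⟩
  have h1 : ball (0 : EuclideanSpace ℂ (Fin m)) 1 ∩ (fun z => f (refl e v z)) ⁻¹' K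
      = ball (0 : EuclideanSpace ℂ (Fin m)) 1 ∩ refl e v ⁻¹'
        (ball (0 : EuclideanSpace ℂ (Fin m)) 1 ∩ f ⁻¹' K) := by
    ext z
    constructor
    · rintro ⟨h1, h2⟩
      exact ⟨h1, hmap h1, h2⟩
    · rintro ⟨h1, _, h2⟩
      exact ⟨h1, h2⟩
  rw [h1, refl_preimage hE Set.inter_subset_left]
  exact (hf.2.2 K hK hc).image_of_continuousOn
    ((refl_diff hE).continuousOn.mono Set.inter_subset_left)

end refl

end Pool.Agent.T6.H21.JD
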